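import Pool.Agent.Lib.MP_952e97_co.Positivity

set_option autoImplicit false
set_option linter.unusedSectionVars false

namespace Pool.Agent.MP_952e97_co

open Finset
open scoped BigOperators ComplexConjugate

variable {M : ℕ} [NeZero M]

/-- Two residues in a common cell of length `1/L` have close exponentials. -/
lemma norm_e_sub_one_le_of_cell (L : ℕ) (hL : 0 < L) (a b : ZMod M)
    (h : (L * a.val) / M = (L * b.val) / M) :
    ‖e (a - b) - 1‖ ≤ 2 * Real.pi / L := by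
  have hMpos : 0 < M := Nat.pos_of_ne_zero (NeZero.ne M)
  have hM := M_pos (M := M)
  have hLr : (0 : ℝ) < L := Nat.cast_pos.mpr hL
  have hab : a - b = (((a.val : ℤ) - (b.val : ℤ) : ℤ) : ZMod M) := by
    push_cast
    rw [ZMod.natCast_zmod_val, ZMod.natCast_zmod_val]
  unfold e
  rw [hab, ZMod.stdAddChar_coe]
  have hexp : (2 * (Real.pi : ℂ) * Complex.I * (((a.val : ℤ) - (b.val : ℤ) : ℤ) : ℂ) / (M : ℂ))
      = Complex.I * ((2 * Real.pi * ((a.val : ℝ) - (b.val : ℝ)) / M : ℝ) : ℂ) := by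
    push_cast
    ring
  rw [hexp]
  refine Real.norm_exp_I_mul_ofReal_sub_one_le.trans ?_
  rw [Real.norm_eq_abs]
  -- |a.val - b.val| * L ≤ M
  have h1 : |(a.val : ℝ) - (b.val : ℝ)| * L ≤ M := by
    have ha1 := Nat.div_add_mod (L * a.val) M
    have hb1 := Nat.div_add_mod (L * b.val) M
    have ha2 := Nat.mod_lt (L * a.val) hMpos
    have hb2 := Nat.mod_lt (L * b.val) hMpos
    rw [h] at ha1
    have ha3 : (L : ℝ) * a.val = M * ((L * b.val / M : ℕ) : ℝ) + ((L * a.val % M : ℕ) : ℝ) := by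
      exact_mod_cast ha1.symm
    have hb3 : (L : ℝ) * b.val = M * ((L * b.val / M : ℕ) : ℝ) + ((L * b.val % M : ℕ) : ℝ) := by
      exact_mod_cast hb1.symm
    have ha4 : ((L * a.val % M : ℕ) : ℝ) ≤ M := by exact_mod_cast ha2.le
    have hb4 : ((L * b.val % M : ℕ) : ℝ) ≤ M := by exact_mod_cast hb2.le
    have ha5 : (0 : ℝ) ≤ ((L * a.val % M : ℕ) : ℝ) := Nat.cast_nonneg _
    have hb5 : (0 : ℝ) ≤ ((L * b.val % M : ℕ) : ℝ) := Nat.cast_nonneg _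
    have h2 : |(a.val : ℝ) - (b.val : ℝ)| * L = |(L : ℝ) * a.val - L * b.val| := by
      rw [← mul_sub, abs_mul, abs_of_pos hLr, mul_comm]
    rw [h2, ha3, hb3]
    rw [abs_le]
    constructor <;> linarith
  have h3 : |2 * Real.pi * ((a.val : ℝ) - (b.val : ℝ)) / M|
      = 2 * Real.pi * |(a.val : ℝ) - (b.val : ℝ)| / M := by
    rw [abs_div, abs_mul, abs_of_pos hM, abs_of_pos Real.two_pi_pos]
  rw [h3, div_le_div_iff₀ hM hLr]
  have := Real.pi_pos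
  nlinarith

/-- The pigeonhole lemma. -/
lemma exists_bohr (R : Finset (ZMod M)) (K L : ℕ) (hKM : K < M) (hL : 0 < L) :
    ∃ T : Finset (ZMod M), (0 : ZMod M) ∈ T ∧ ((K : ℝ) + 1) / (L : ℝ) ^ #R ≤ #T ∧
      (∀ t₁ ∈ T, ∀ t₂ ∈ T, ∀ r ∈ R, ‖e (r * (t₁ - t₂)) - 1‖ ≤ 2 * Real.pi / L) ∧
      (∀ t₁ ∈ T, ∀ t₂ ∈ T, ∃ k : ℤ, |k| ≤ K ∧ (k : ZMod M) = t₁ - t₂) := by
  classical
  have hMpos : 0 < M := Nat.pos_of_ne_zero (NeZero.ne M)
  have hLr : (0 : ℝ) < L := Nat.cast_pos.mpr hL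
  -- the cell map
  let cell : ℕ → (R → Fin L) := fun t r =>
    ⟨(L * (r.1 * (t : ZMod M)).val) / M, by
      rw [Nat.div_lt_iff_lt_mul hMpos]
      exact Nat.mul_lt_mul_of_pos_left (ZMod.val_lt _) hL⟩
  obtain ⟨y, -, hy⟩ := Finset.exists_le_card_fiber_of_nsmul_le_card_of_maps_to
    (s := Finset.range (K + 1)) (t := (Finset.univ : Finset (R → Fin L))) (f := cell)
    (b := ((K : ℝ) + 1) / (L : ℝ) ^ #R) (fun a _ => Finset.mem_univ _)
    ⟨fun _ => ⟨0, hL⟩, Finset.mem_univ _⟩ (by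
      rw [Finset.card_univ, Fintype.card_fun, Fintype.card_fin, Fintype.card_coe, nsmul_eq_mul,
        Finset.card_range]
      push_cast
      rw [mul_div_cancel₀]
      positivity)
  set T' := (Finset.range (K + 1)).filter (fun x => cell x = y) with hT'
  have hposT' : 0 < #T' := by
    have : (0 : ℝ) < #T' := lt_of_lt_of_le (by positivity) hy
    exact_mod_cast this
  obtain ⟨t₀, ht₀⟩ := Finset.card_pos.mp hposT'
  have hinj : Set.InjOn (fun t : ℕ => (t : ZMod M) - (t₀ : ZMod M)) (T' : Set ℕ) := by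
    intro a ha b hb hab
    have ha' := (Finset.mem_filter.mp (Finset.mem_coe.mp ha)).1
    have hb' := (Finset.mem_filter.mp (Finset.mem_coe.mp hb)).1
    rw [Finset.mem_range] at ha' hb'
    have h1 : ((a : ℕ) : ZMod M) = (b : ZMod M) := by
      simpa using hab
    rw [ZMod.natCast_eq_natCast_iff'] at h1
    rwa [Nat.mod_eq_of_lt (by omega), Nat.mod_eq_of_lt (by omega)] at h1
  refine ⟨T'.image (fun t : ℕ => (t : ZMod M) - (t₀ : ZMod M)), ?_, ?_, ?_, ?_⟩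
  · exact Finset.mem_image.mpr ⟨t₀, ht₀, by simp⟩
  · rw [Finset.card_image_of_injOn hinj]
    exact hy
  · intro t₁ h₁ t₂ h₂ r hr
    obtain ⟨a, ha, rfl⟩ := Finset.mem_image.mp h₁
    obtain ⟨b, hb, rfl⟩ := Finset.mem_image.mp h₂
    have ha' := (Finset.mem_filter.mp ha).2
    have hb' := (Finset.mem_filter.mp hb).2
    have h3 : cell a ⟨r, hr⟩ = cell b ⟨r, hr⟩ := by rw [ha', hb']
    have h4 : (L * (r * (a : ZMod M)).val) / M = (L * (r * (b : ZMod M)).val) / M :=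
      congrArg Fin.val h3
    have h5 := norm_e_sub_one_le_of_cell L hL _ _ h4
    have h6 : r * (((a : ZMod M) - (t₀ : ZMod M)) - ((b : ZMod M) - (t₀ : ZMod M)))
        = r * (a : ZMod M) - r * (b : ZMod M) := by ring
    rw [h6]
    exact h5
  · intro t₁ h₁ t₂ h₂
    obtain ⟨a, ha, rfl⟩ := Finset.mem_image.mp h₁
    obtain ⟨b, hb, rfl⟩ := Finset.mem_image.mp h₂
    have ha' := (Finset.mem_filter.mp ha).1
    have hb' := (Finset.mem_filter.mp hb).1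
    rw [Finset.mem_range] at ha' hb'
    refine ⟨(a : ℤ) - (b : ℤ), ?_, ?_⟩
    · rw [abs_le]; constructor <;> omega
    · push_cast; ring

lemma norm_one_sub_nu_le (T : Finset (ZMod M)) (hT : T.Nonempty) (r : ZMod M) {ε : ℝ}
    (h : ∀ t ∈ T, ‖e (r * t) - 1‖ ≤ ε) : ‖1 - nu T r‖ ≤ ε := by
  have hpos : (0 : ℝ) < #T := Nat.cast_pos.mpr hT.card_pos
  have hne : ((#T : ℕ) : ℂ) ≠ 0 := Nat.cast_ne_zero.mpr hT.card_pos.ne'
  have h1 : 1 - nu T r = (∑ t ∈ T, (1 - e (r * t))) / (#T : ℂ) := by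
    unfold nu
    rw [Finset.sum_sub_distrib, sub_div]
    simp [hne]
  rw [h1, norm_div, Complex.norm_natCast, div_le_iff₀ hpos]
  calc ‖∑ t ∈ T, (1 - e (r * t))‖ ≤ ∑ t ∈ T, ‖1 - e (r * t)‖ := norm_sum_le _ _
    _ ≤ ∑ t ∈ T, ε := Finset.sum_le_sum fun t ht => by rw [norm_sub_rev]; exact h t ht
    _ = ε * #T := by rw [Finset.sum_const, nsmul_eq_mul, mul_comm]

lemma norm_mul_sub_one_le {a b : ℂ} {ε : ℝ} (hb : ‖b‖ ≤ 1) (h1 : ‖a - 1‖ ≤ ε)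
    (h2 : ‖b - 1‖ ≤ ε) : ‖a * b - 1‖ ≤ 2 * ε := by
  have h3 : a * b - 1 = (a - 1) * b + (b - 1) := by ring
  rw [h3]
  calc ‖(a - 1) * b + (b - 1)‖ ≤ ‖(a - 1) * b‖ + ‖b - 1‖ := norm_add_le _ _
    _ ≤ ε + ε := by
        refine add_le_add ?_ h2
        rw [norm_mul]
        calc ‖a - 1‖ * ‖b‖ ≤ ‖a - 1‖ * 1 := mul_le_mul_of_nonneg_left hb (norm_nonneg _)
          _ ≤ ε := by rw [mul_one]; exact h1
    _ = 2 * ε := by ring

/-- The lower bound for the form when the spectrum and `T` fit together. -/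
lemma LamR_main {T : Finset (ZMod M)} {f : ZMod M × ZMod M → ℝ} {ε l₁ l₂ : ℝ}
    (S : Spec T f ε l₁ l₂) (ω : ZMod M × ZMod M) (hω : IsUnit (1 - ω.2))
    (h0 : (0 : ZMod M) ∈ T)
    (hR : ∀ ξ, l₁ ≤ ‖fhat f ξ‖ → ∀ t₁ ∈ T, ∀ t₂ ∈ T,
      ‖e (ξ.1 * (t₁ - t₂)) - 1‖ ≤ ε ∧ ‖e (ξ.2 * (t₁ - t₂)) - 1‖ ≤ ε ∧
        ‖e (dot ξ ω * (t₁ - t₂)) - 1‖ ≤ ε) :
    (avg f) ^ 3 - 25 * ε ≤ LamR T ω f f := by
  have hε := S.hε
  have hR0 : ∀ ξ, l₁ ≤ ‖fhat f ξ‖ → ∀ t ∈ T,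
      ‖e (ξ.1 * t) - 1‖ ≤ ε ∧ ‖e (ξ.2 * t) - 1‖ ≤ ε ∧ ‖e (dot ξ ω * t) - 1‖ ≤ ε := by
    intro ξ hξ t ht
    have := hR ξ hξ t ht 0 h0
    simpa using this
  have hν : ∀ ξ, l₁ ≤ ‖fhat f ξ‖ → ‖1 - nu T ξ.1 * nu T ξ.2‖ ≤ 2 * ε := by
    intro ξ hξ
    have h1 := norm_one_sub_nu_le T S.hT ξ.1 (fun t ht => (hR0 ξ hξ t ht).1)
    have h2 := norm_one_sub_nu_le T S.hT ξ.2 (fun t ht => (hR0 ξ hξ t ht).2.1)
    rw [norm_sub_rev] at h1 h2 ⊢
    exact norm_mul_sub_one_le (norm_nu_le T ξ.2) h1 h2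
  have hdiff := Lam_diff S ω hω hν
  have hge := LamR_ge S.hT S.hf0 S.hf1 ω (δ := 4 * ε)
    (fun s₁ hs₁ s₂ hs₂ t₁ ht₁ t₂ ht₂ => Fav_shift S _ (fun ξ hξ => by
      rw [chi_pair]
      refine norm_mul_sub_one_le (norm_e _).le ?_ ?_
      · exact (hR ξ hξ s₁ hs₁ s₂ hs₂).1
      · exact (hR ξ hξ t₁ ht₁ t₂ ht₂).2.1))
    (fun t ht => Fav_shift S _ (fun ξ hξ => by
      rw [chi_mulw]
      have := (hR0 ξ hξ t ht).2.2
      linarith))
    (fun s hs t ht => Fav_shift S _ (fun ξ hξ => by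
      rw [chi_pair]
      refine norm_mul_sub_one_le (norm_e _).le ?_ ?_
      · exact (hR0 ξ hξ s hs).1
      · exact (hR0 ξ hξ t ht).2.1))
  have h1 := abs_le.mp hdiff
  linarith [h1.1]

end Pool.Agent.MP_952e97_co
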