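import Pool.Agent.Lib.MP_952e97_co.Forms

set_option autoImplicit false

namespace Pool.Agent.MP_952e97_co

open Finset
open scoped BigOperators ComplexConjugate

variable {M : ℕ} [NeZero M]

section avg

lemma avg_shift (h : ZMod M × ZMod M → ℝ) (y : ZMod M × ZMod M) :
    avg (fun x => h (x + y)) = avg h := by
  unfold avg
  congr 1
  exact Fintype.sum_equiv (Equiv.addRight y) _ _ fun x => by simp

lemma avg_mono {g h : ZMod M × ZMod M → ℝ} (hgh : ∀ x, g x ≤ h x) : avg g ≤ avg h := by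
  unfold avg
  exact div_le_div_of_nonneg_right (Finset.sum_le_sum fun x _ => hgh x) (by positivity)

lemma avg_add (g h : ZMod M × ZMod M → ℝ) : avg (fun x => g x + h x) = avg g + avg h := by
  unfold avg
  rw [Finset.sum_add_distrib, add_div]

lemma avg_sub (g h : ZMod M × ZMod M → ℝ) : avg (fun x => g x - h x) = avg g - avg h := by
  unfold avg
  rw [Finset.sum_sub_distrib, sub_div]

lemma avg_mul_left (c : ℝ) (h : ZMod M × ZMod M → ℝ) :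
    avg (fun x => c * h x) = c * avg h := by
  unfold avg
  rw [← Finset.mul_sum, mul_div_assoc]

lemma avg_div (h : ZMod M × ZMod M → ℝ) (c : ℝ) :
    avg (fun x => h x / c) = avg h / c := by
  unfold avg
  rw [← Finset.sum_div, div_right_comm]

lemma avg_sum {ι : Type*} (s : Finset ι) (h : ι → ZMod M × ZMod M → ℝ) :
    avg (fun x => ∑ i ∈ s, h i x) = ∑ i ∈ s, avg (h i) := by
  unfold avg
  rw [Finset.sum_comm, Finset.sum_div]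

lemma avg_const (c : ℝ) : avg (fun _ : ZMod M × ZMod M => c) = c := by
  unfold avg
  rw [Finset.sum_const, Finset.card_univ, card_G, nsmul_eq_mul]
  have := M_pos (M := M)
  push_cast
  field_simp

lemma avg_nonneg {h : ZMod M × ZMod M → ℝ} (hh : ∀ x, 0 ≤ h x) : 0 ≤ avg h := by
  unfold avg
  exact div_nonneg (Finset.sum_nonneg fun x _ => hh x) (by positivity)

lemma sq_avg_le (h : ZMod M × ZMod M → ℝ) : (avg h) ^ 2 ≤ avg (fun x => h x ^ 2) := by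
  unfold avg
  have h1 := sq_sum_le_card_mul_sum_sq (s := (Finset.univ : Finset (ZMod M × ZMod M))) (f := h)
  rw [Finset.card_univ, card_G] at h1
  have hM := M_pos (M := M)
  rw [div_pow, div_le_div_iff₀ (by positivity) (by positivity)]
  push_cast at h1
  nlinarith [pow_pos hM 2]

lemma cube_avg_le (h : ZMod M × ZMod M → ℝ) (hh : ∀ x, 0 ≤ h x) :
    (avg h) ^ 3 ≤ avg (fun x => h x ^ 3) := by
  set m := avg h with hm
  have hm0 : 0 ≤ m := avg_nonneg hh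
  have h1 : avg (fun x => 3 * m ^ 2 * h x - 2 * m ^ 3) ≤ avg (fun x => h x ^ 3) := by
    apply avg_mono
    intro x
    nlinarith [mul_nonneg (sq_nonneg (h x - m)) (add_nonneg (hh x) (mul_nonneg zero_le_two hm0))]
  rw [avg_sub, avg_mul_left, avg_const, ← hm] at h1
  nlinarith

end avg

/-- The local average of `f`. -/
noncomputable def Fav (T : Finset (ZMod M)) (f : ZMod M × ZMod M → ℝ) (x : ZMod M × ZMod M) : ℝ :=
  (∑ s ∈ T, ∑ t ∈ T, f (x + (s, t))) / (#T : ℝ) ^ 2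

lemma Fav_expand (T : Finset (ZMod M)) (hT : T.Nonempty) (f : ZMod M × ZMod M → ℝ)
    (x : ZMod M × ZMod M) :
    (Fav T f x : ℂ) = ∑ ξ, (fhat f ξ * nu T ξ.1 * nu T ξ.2) * chi ξ x := by
  have hne : ((#T : ℕ) : ℂ) ≠ 0 := Nat.cast_ne_zero.mpr hT.card_pos.ne'
  unfold Fav
  push_cast
  have h1 : ∑ s ∈ T, ∑ t ∈ T, (f (x + (s, t)) : ℂ)
      = ∑ ξ, fhat f ξ * chi ξ x * ((∑ s ∈ T, e (ξ.1 * s)) * (∑ t ∈ T, e (ξ.2 * t))) := by
    have : ∀ s ∈ T, ∑ t ∈ T, (f (x + (s, t)) : ℂ)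
        = ∑ ξ, ∑ t ∈ T, fhat f ξ * chi ξ x * (e (ξ.1 * s) * e (ξ.2 * t)) := by
      intro s _
      rw [Finset.sum_comm]
      refine Finset.sum_congr rfl fun t _ => ?_
      rw [f_expand]
      refine Finset.sum_congr rfl fun ξ _ => ?_
      rw [chi_add_right ξ, chi_pair ξ s t, mul_assoc]
    rw [Finset.sum_congr rfl this, Finset.sum_comm]
    refine Finset.sum_congr rfl fun ξ _ => ?_
    rw [Finset.sum_mul_sum, Finset.mul_sum]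
    refine Finset.sum_congr rfl fun s _ => ?_
    rw [Finset.mul_sum]
  rw [h1, Finset.sum_div]
  refine Finset.sum_congr rfl fun ξ _ => ?_
  unfold nu
  field_simp

lemma avg_abs_le_of_coeff (h : ZMod M × ZMod M → ℂ) (c : ZMod M × ZMod M → ℂ)
    (hc : ∀ x, h x = ∑ ξ, c ξ * chi ξ x) {B : ℝ} (hB : 0 ≤ B) (hcB : ∑ ξ, ‖c ξ‖ ^ 2 ≤ B ^ 2) :
    avg (fun x => ‖h x‖) ≤ B := by
  have h1 := sq_avg_le (fun x : ZMod M × ZMod M => ‖h x‖)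
  have h2 : avg (fun x : ZMod M × ZMod M => ‖h x‖ ^ 2) = ∑ ξ, ‖c ξ‖ ^ 2 := by
    rw [← parseval]
    congr 1
    funext x
    rw [hc]
  rw [h2] at h1
  exact abs_le_of_sq_le_sq' (h1.trans hcB) hB |>.2

/-- Hypotheses on the spectrum. -/
structure Spec (T : Finset (ZMod M)) (f : ZMod M × ZMod M → ℝ) (ε l₁ l₂ : ℝ) : Prop where
  hT : T.Nonempty
  hf0 : ∀ x, 0 ≤ f x
  hf1 : ∀ x, f x ≤ 1
  hε : 0 < ε
  hl₂ : 0 < l₂
  hMed : ∑ ξ with l₂ ≤ ‖fhat f ξ‖ ∧ ‖fhat f ξ‖ < l₁, ‖fhat f ξ‖ ^ 2 ≤ ε ^ 2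
  hSmall : l₂ * ((M : ℝ) / #T) ^ 2 ≤ ε

lemma Spec.one_le {T : Finset (ZMod M)} {f : ZMod M × ZMod M → ℝ} {ε l₁ l₂ : ℝ}
    (S : Spec T f ε l₁ l₂) : 1 ≤ (M : ℝ) / #T := by
  have hpos : (0 : ℝ) < #T := Nat.cast_pos.mpr S.hT.card_pos
  rw [le_div_iff₀ hpos, one_mul]
  have : #T ≤ M := by
    calc #T ≤ Fintype.card (ZMod M) := Finset.card_le_univ T
      _ = M := ZMod.card M
  exact_mod_cast this

lemma Spec.small' {T : Finset (ZMod M)} {f : ZMod M × ZMod M → ℝ} {ε l₁ l₂ : ℝ}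
    (S : Spec T f ε l₁ l₂) : l₂ * ((M : ℝ) / #T) ≤ ε := by
  have h1 := S.one_le
  have h2 := S.hSmall
  have h3 : (M : ℝ) / #T ≤ ((M : ℝ) / #T) ^ 2 := by nlinarith
  exact (mul_le_mul_of_nonneg_left h3 S.hl₂.le).trans h2

lemma Spec.sum_le {T : Finset (ZMod M)} {f : ZMod M × ZMod M → ℝ} {ε l₁ l₂ : ℝ}
    (S : Spec T f ε l₁ l₂) : ∑ ξ, ‖fhat f ξ‖ ^ 2 ≤ 1 := by
  unfold fhat
  rw [parseval_hat]
  calc avg (fun x => ‖((f x : ℝ) : ℂ)‖ ^ 2) ≤ avg (fun _ : ZMod M × ZMod M => (1 : ℝ)) := by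
        apply avg_mono
        intro x
        rw [Complex.norm_real, Real.norm_of_nonneg (S.hf0 x)]
        have := S.hf0 x
        have := S.hf1 x
        nlinarith
    _ = 1 := avg_const 1

/-- The three-part bound for a spectral sum. -/
lemma Spec.three {T : Finset (ZMod M)} {f : ZMod M × ZMod M → ℝ} {ε l₁ l₂ : ℝ}
    (S : Spec T f ε l₁ l₂) (q : ZMod M × ZMod M → ℝ) (hq0 : ∀ ξ, 0 ≤ q ξ)
    (hq : ∀ ξ, q ξ ≤ 4) (hqL : ∀ ξ, l₁ ≤ ‖fhat f ξ‖ → q ξ ≤ 4 * ε ^ 2) :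
    ∑ ξ, ‖fhat f ξ‖ ^ 2 * (‖nu T ξ.1‖ ^ 2 * ‖nu T ξ.2‖ ^ 2) * q ξ ≤ (4 * ε) ^ 2 := by
  classical
  have h1 : ∀ ξ : ZMod M × ZMod M, ‖fhat f ξ‖ ^ 2 * (‖nu T ξ.1‖ ^ 2 * ‖nu T ξ.2‖ ^ 2) * q ξ ≤
      4 * ε ^ 2 * ‖fhat f ξ‖ ^ 2 +
      4 * (if l₂ ≤ ‖fhat f ξ‖ ∧ ‖fhat f ξ‖ < l₁ then ‖fhat f ξ‖ ^ 2 else 0) +
      4 * l₂ ^ 2 * (‖nu T ξ.1‖ ^ 2 * ‖nu T ξ.2‖ ^ 2) := by
    intro ξ
    have hn1 := norm_nu_le T ξ.1
    have hn2 := norm_nu_le T ξ.2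
    have hn10 := norm_nonneg (nu T ξ.1)
    have hn20 := norm_nonneg (nu T ξ.2)
    have hN : ‖nu T ξ.1‖ ^ 2 * ‖nu T ξ.2‖ ^ 2 ≤ 1 := by
      have a1 : ‖nu T ξ.1‖ ^ 2 ≤ 1 := by nlinarith
      have a2 : ‖nu T ξ.2‖ ^ 2 ≤ 1 := by nlinarith
      have a3 : 0 ≤ ‖nu T ξ.1‖ ^ 2 := by positivity
      nlinarith
    have hN0 : 0 ≤ ‖nu T ξ.1‖ ^ 2 * ‖nu T ξ.2‖ ^ 2 := by positivity
    have hf := norm_nonneg (fhat f ξ)
    have hA0 : 0 ≤ ‖fhat f ξ‖ ^ 2 := by positivity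
    have hε := S.hε
    have hl := S.hl₂
    rcases le_or_gt l₁ ‖fhat f ξ‖ with hL | hL
    · have hq1 := hqL ξ hL
      have : ‖fhat f ξ‖ ^ 2 * (‖nu T ξ.1‖ ^ 2 * ‖nu T ξ.2‖ ^ 2) * q ξ ≤
          ‖fhat f ξ‖ ^ 2 * 1 * (4 * ε ^ 2) := by
        refine mul_le_mul (mul_le_mul_of_nonneg_left hN hA0) hq1 (hq0 ξ) (by positivity)
      have h2 : 0 ≤ 4 * (if l₂ ≤ ‖fhat f ξ‖ ∧ ‖fhat f ξ‖ < l₁ then ‖fhat f ξ‖ ^ 2 else 0) := by
        split_ifs <;> positivity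
      have h3 : 0 ≤ 4 * l₂ ^ 2 * (‖nu T ξ.1‖ ^ 2 * ‖nu T ξ.2‖ ^ 2) := by positivity
      linarith
    · rcases le_or_gt l₂ ‖fhat f ξ‖ with hm | hs
      · rw [if_pos ⟨hm, hL⟩]
        have : ‖fhat f ξ‖ ^ 2 * (‖nu T ξ.1‖ ^ 2 * ‖nu T ξ.2‖ ^ 2) * q ξ ≤
            ‖fhat f ξ‖ ^ 2 * 1 * 4 := by
          refine mul_le_mul (mul_le_mul_of_nonneg_left hN hA0) (hq ξ) (hq0 ξ) (by positivity)
        have h3 : 0 ≤ 4 * l₂ ^ 2 * (‖nu T ξ.1‖ ^ 2 * ‖nu T ξ.2‖ ^ 2) := by positivity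
        have h4 : 0 ≤ 4 * ε ^ 2 * ‖fhat f ξ‖ ^ 2 := by positivity
        linarith
      · have hs2 : ‖fhat f ξ‖ ^ 2 ≤ l₂ ^ 2 := by nlinarith
        have : ‖fhat f ξ‖ ^ 2 * (‖nu T ξ.1‖ ^ 2 * ‖nu T ξ.2‖ ^ 2) * q ξ ≤
            l₂ ^ 2 * (‖nu T ξ.1‖ ^ 2 * ‖nu T ξ.2‖ ^ 2) * 4 := by
          refine mul_le_mul (mul_le_mul_of_nonneg_right hs2 hN0) (hq ξ) (hq0 ξ) (by positivity)
        have h2 : 0 ≤ 4 * (if l₂ ≤ ‖fhat f ξ‖ ∧ ‖fhat f ξ‖ < l₁ then ‖fhat f ξ‖ ^ 2 else 0) := by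
          split_ifs <;> positivity
        have h4 : 0 ≤ 4 * ε ^ 2 * ‖fhat f ξ‖ ^ 2 := by positivity
        linarith
  refine (Finset.sum_le_sum fun ξ _ => h1 ξ).trans ?_
  rw [Finset.sum_add_distrib, Finset.sum_add_distrib, ← Finset.mul_sum, ← Finset.mul_sum,
    ← Finset.mul_sum, sum_nu_prod T S.hT, ← Finset.sum_filter]
  have h2 := S.sum_le
  have h3 := S.hMed
  have h4 := S.small'
  have h5 := S.one_le
  have hε := S.hε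
  have hl := S.hl₂
  have h6 : l₂ ^ 2 * ((M : ℝ) / #T) ^ 2 ≤ ε ^ 2 := by
    have : l₂ ^ 2 * ((M : ℝ) / #T) ^ 2 = (l₂ * ((M : ℝ) / #T)) ^ 2 := by ring
    rw [this]
    have : 0 ≤ l₂ * ((M : ℝ) / #T) := by positivity
    nlinarith
  have h7 : 4 * ε ^ 2 * ∑ ξ, ‖fhat f ξ‖ ^ 2 ≤ 4 * ε ^ 2 := by nlinarith [sq_nonneg ε]
  nlinarith

lemma Fav_shift {T : Finset (ZMod M)} {f : ZMod M × ZMod M → ℝ} {ε l₁ l₂ : ℝ}
    (S : Spec T f ε l₁ l₂) (y : ZMod M × ZMod M)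
    (hy : ∀ ξ, l₁ ≤ ‖fhat f ξ‖ → ‖chi ξ y - 1‖ ≤ 2 * ε) :
    avg (fun x => |Fav T f (x + y) - Fav T f x|) ≤ 4 * ε := by
  have hε := S.hε
  have h0 : ∀ x : ZMod M × ZMod M, ((Fav T f (x + y) : ℂ) - (Fav T f x : ℂ))
      = ∑ ξ, ((fhat f ξ * nu T ξ.1 * nu T ξ.2) * (chi ξ y - 1)) * chi ξ x := by
    intro x
    rw [Fav_expand T S.hT, Fav_expand T S.hT, ← Finset.sum_sub_distrib]
    refine Finset.sum_congr rfl fun ξ _ => ?_
    rw [chi_add_right]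
    ring
  have h1 := avg_abs_le_of_coeff (fun x => ((Fav T f (x + y) : ℂ) - (Fav T f x : ℂ)))
    (fun ξ => (fhat f ξ * nu T ξ.1 * nu T ξ.2) * (chi ξ y - 1)) h0 (B := 4 * ε)
    (by positivity) (by
      have h2 := S.three (fun ξ => ‖chi ξ y - 1‖ ^ 2) (fun ξ => by positivity)
        (fun ξ => by
          have : ‖chi ξ y - 1‖ ≤ 2 := by
            calc ‖chi ξ y - 1‖ ≤ ‖chi ξ y‖ + ‖(1 : ℂ)‖ := norm_sub_le _ _
              _ = 2 := by rw [norm_chi, norm_one]; norm_num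
          nlinarith [norm_nonneg (chi ξ y - 1)])
        (fun ξ hξ => by
          have := hy ξ hξ
          nlinarith [norm_nonneg (chi ξ y - 1)])
      refine le_trans (le_of_eq ?_) h2
      refine Finset.sum_congr rfl fun ξ _ => ?_
      simp only [norm_mul, mul_pow]
      ring)
  refine le_trans (le_of_eq ?_) h1
  congr 1
  funext x
  rw [← Complex.ofReal_sub, Complex.norm_real, Real.norm_eq_abs]

end Pool.Agent.MP_952e97_co
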