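import Pool.Agent.Lib.MP_952e97_co.Bohr

set_option autoImplicit false
set_option linter.unusedSectionVars false

namespace Pool.Agent.MP_952e97_co

open Finset
open scoped BigOperators ComplexConjugate

lemma antitone_le (lam : ℕ → ℝ) (hanti : ∀ i, lam (i + 1) ≤ lam i) {i j : ℕ} (hij : i ≤ j) :
    lam j ≤ lam i := antitone_nat_of_succ_le hanti hij

lemma sum_band_le (lam : ℕ → ℝ) (hanti : ∀ i, lam (i + 1) ≤ lam i) (x : ℝ) (J : ℕ) :
    ∑ i ∈ Finset.range J, (if lam (i + 1) ≤ x ∧ x < lam i then (1 : ℝ) else 0)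
      ≤ if lam J ≤ x then 1 else 0 := by
  induction J with
  | zero =>
    simp only [Finset.range_zero, Finset.sum_empty]
    split_ifs <;> norm_num
  | succ J ih =>
    rw [Finset.sum_range_succ]
    have h := hanti J
    by_cases h1 : lam J ≤ x
    · have h2 : lam (J + 1) ≤ x := h.trans h1
      rw [if_pos h1] at ih
      rw [if_pos h2, if_neg (fun h3 => absurd h3.2 (not_lt.mpr h1))]
      linarith
    · rw [if_neg h1] at ih
      by_cases h2 : lam (J + 1) ≤ x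
      · rw [if_pos h2, if_pos ⟨h2, not_le.mp h1⟩]
        linarith
      · rw [if_neg h2, if_neg (fun h3 => h2 h3.1)]
        linarith

lemma exists_band {ι : Type*} [Fintype ι] (a : ι → ℝ) (hsum : ∑ ξ, a ξ ^ 2 ≤ 1)
    (lam : ℕ → ℝ) (hanti : ∀ i, lam (i + 1) ≤ lam i) (ε : ℝ) (J : ℕ)
    (hJ : 1 ≤ (J : ℝ) * ε ^ 2) :
    ∃ i < J, ∑ ξ with lam (i + 1) ≤ a ξ ∧ a ξ < lam i, a ξ ^ 2 ≤ ε ^ 2 := by
  classical
  by_contra hcon
  push Not at hcon
  have hJ0 : 0 < J := by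
    rcases Nat.eq_zero_or_pos J with h | h
    · subst h; norm_num at hJ
    · exact h
  have h1 : ∑ i ∈ Finset.range J, ε ^ 2
      < ∑ i ∈ Finset.range J, ∑ ξ with lam (i + 1) ≤ a ξ ∧ a ξ < lam i, a ξ ^ 2 :=
    Finset.sum_lt_sum_of_nonempty (by simpa using hJ0.ne') (fun i hi => hcon i (Finset.mem_range.mp hi))
  have h2 : ∑ i ∈ Finset.range J, ∑ ξ with lam (i + 1) ≤ a ξ ∧ a ξ < lam i, a ξ ^ 2
      ≤ ∑ ξ, a ξ ^ 2 := by
    simp only [Finset.sum_filter]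
    rw [Finset.sum_comm]
    refine Finset.sum_le_sum fun ξ _ => ?_
    have h3 : ∑ i ∈ Finset.range J, (if lam (i + 1) ≤ a ξ ∧ a ξ < lam i then a ξ ^ 2 else 0)
        = a ξ ^ 2 * ∑ i ∈ Finset.range J, (if lam (i + 1) ≤ a ξ ∧ a ξ < lam i then (1 : ℝ) else 0) := by
      rw [Finset.mul_sum]
      refine Finset.sum_congr rfl fun i _ => ?_
      split_ifs <;> simp
    rw [h3]
    have h4 := sum_band_le lam hanti (a ξ) J
    have h5 : (if lam J ≤ a ξ then (1 : ℝ) else 0) ≤ 1 := by split_ifs <;> norm_num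
    calc a ξ ^ 2 * ∑ i ∈ Finset.range J, (if lam (i + 1) ≤ a ξ ∧ a ξ < lam i then (1 : ℝ) else 0)
        ≤ a ξ ^ 2 * 1 := mul_le_mul_of_nonneg_left (h4.trans h5) (sq_nonneg _)
      _ = a ξ ^ 2 := mul_one _
  rw [Finset.sum_const, Finset.card_range, nsmul_eq_mul] at h1
  linarith

lemma card_large_le {ι : Type*} [Fintype ι] (a : ι → ℝ) (hsum : ∑ ξ, a ξ ^ 2 ≤ 1)
    {l : ℝ} (hl : 0 < l) : #{ξ | l ≤ a ξ} ≤ ⌊1 / l ^ 2⌋₊ := by
  classical
  apply Nat.le_floor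
  rw [le_div_iff₀ (by positivity)]
  calc (#{ξ | l ≤ a ξ} : ℝ) * l ^ 2 = ∑ ξ with l ≤ a ξ, l ^ 2 := by
        rw [Finset.sum_const, nsmul_eq_mul]
    _ ≤ ∑ ξ with l ≤ a ξ, a ξ ^ 2 := Finset.sum_le_sum fun ξ hξ => by
        have := (Finset.mem_filter.mp hξ).2
        nlinarith
    _ ≤ ∑ ξ, a ξ ^ 2 := Finset.sum_le_sum_of_subset_of_nonneg (Finset.filter_subset _ _)
        (fun _ _ _ => sq_nonneg _)
    _ ≤ 1 := hsum

/-- number of frequencies controlled at level `l` -/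
noncomputable def nfreq (l : ℝ) : ℕ := 3 * ⌊1 / l ^ 2⌋₊

/-- density of the Bohr-type set at level `l` -/
noncomputable def beta (δ : ℝ) (L : ℕ) (l : ℝ) : ℝ := δ / (L : ℝ) ^ nfreq l

/-- the sequence of thresholds -/
noncomputable def lamSeq (ε δ : ℝ) (L : ℕ) : ℕ → ℝ
  | 0 => 1
  | n + 1 => min (lamSeq ε δ L n) (ε * beta δ L (lamSeq ε δ L n) ^ 2)

lemma lamSeq_pos {ε δ : ℝ} (hε : 0 < ε) (hδ : 0 < δ) {L : ℕ} (hL : 0 < L) (n : ℕ) :
    0 < lamSeq ε δ L n := by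
  have hLr : (0 : ℝ) < L := Nat.cast_pos.mpr hL
  induction n with
  | zero => simp [lamSeq]
  | succ n ih =>
    simp only [lamSeq, beta]
    exact lt_min ih (by positivity)

lemma lamSeq_anti (ε δ : ℝ) (L : ℕ) (n : ℕ) : lamSeq ε δ L (n + 1) ≤ lamSeq ε δ L n := by
  simp only [lamSeq]
  exact min_le_left _ _

lemma lamSeq_le (ε δ : ℝ) (L : ℕ) (n : ℕ) :
    lamSeq ε δ L (n + 1) ≤ ε * beta δ L (lamSeq ε δ L n) ^ 2 := by
  simp only [lamSeq]
  exact min_le_right _ _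

/-- The regularity statement. -/
theorem regularity (ε δ : ℝ) (hε : 0 < ε) (hδ : 0 < δ) (hδ1 : δ ≤ 1) :
    ∃ lam : ℝ, 0 < lam ∧ ∀ (M : ℕ) [NeZero M] (ω : ZMod M × ZMod M)
      (f : ZMod M × ZMod M → ℝ) (K : ℕ), IsUnit (1 - ω.2) → (∀ x, 0 ≤ f x) → (∀ x, f x ≤ 1) →
      K < M → δ * M ≤ (K : ℝ) + 1 →
      ∃ T : Finset (ZMod M), (0 : ZMod M) ∈ T ∧ lam * M ≤ ε * #T ∧
        (∀ t₁ ∈ T, ∀ t₂ ∈ T, ∃ k : ℤ, |k| ≤ K ∧ (k : ZMod M) = t₁ - t₂) ∧
        (avg f) ^ 3 - 25 * ε ≤ LamR T ω f f := by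
  classical
  obtain ⟨L, hLpos, hL⟩ : ∃ L : ℕ, 0 < L ∧ 2 * Real.pi / L ≤ ε := by
    obtain ⟨L, hL⟩ := exists_nat_gt (2 * Real.pi / ε)
    have h1 : 0 < 2 * Real.pi / ε := div_pos Real.two_pi_pos hε
    have h2 : (0 : ℝ) < L := h1.trans hL
    refine ⟨L, by exact_mod_cast h2, ?_⟩
    rw [div_le_iff₀ h2]
    rw [div_lt_iff₀ hε] at hL
    linarith
  obtain ⟨J, hJ⟩ : ∃ J : ℕ, 1 ≤ (J : ℝ) * ε ^ 2 := by
    obtain ⟨J, hJ⟩ := exists_nat_gt (1 / ε ^ 2)
    refine ⟨J, ?_⟩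
    rw [div_lt_iff₀ (by positivity)] at hJ
    exact hJ.le
  refine ⟨lamSeq ε δ L J, lamSeq_pos hε hδ hLpos J, ?_⟩
  intro M _ ω f K hω hf0 hf1 hKM hKδ
  have hM := M_pos (M := M)
  have hLr : (0 : ℝ) < L := Nat.cast_pos.mpr hLpos
  have hL1 : (1 : ℝ) ≤ L := by exact_mod_cast hLpos
  have hsum : ∑ ξ, ‖fhat f ξ‖ ^ 2 ≤ 1 := by
    unfold fhat
    rw [parseval_hat]
    calc avg (fun x => ‖((f x : ℝ) : ℂ)‖ ^ 2) ≤ avg (fun _ : ZMod M × ZMod M => (1 : ℝ)) := by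
          apply avg_mono
          intro x
          rw [Complex.norm_real, Real.norm_of_nonneg (hf0 x)]
          have := hf0 x
          have := hf1 x
          nlinarith
      _ = 1 := avg_const 1
  obtain ⟨i, hiJ, hband⟩ := exists_band (fun ξ => ‖fhat f ξ‖) hsum (lamSeq ε δ L)
    (lamSeq_anti ε δ L) ε J hJ
  set l₁ := lamSeq ε δ L i with hl₁
  set l₂ := lamSeq ε δ L (i + 1) with hl₂
  have hl₁pos : 0 < l₁ := lamSeq_pos hε hδ hLpos i
  have hl₂pos : 0 < l₂ := lamSeq_pos hε hδ hLpos (i + 1)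
  set Large : Finset (ZMod M × ZMod M) := {ξ | l₁ ≤ ‖fhat f ξ‖} with hLarge
  have hcard : #Large ≤ ⌊1 / l₁ ^ 2⌋₊ := card_large_le (fun ξ => ‖fhat f ξ‖) hsum hl₁pos
  set R : Finset (ZMod M) := Large.image Prod.fst ∪ Large.image Prod.snd ∪
    Large.image (fun ξ => dot ξ ω) with hRdef
  have hRcard : #R ≤ nfreq l₁ := by
    unfold nfreq
    have h1 : #(Large.image Prod.fst) ≤ #Large := Finset.card_image_le
    have h2 : #(Large.image Prod.snd) ≤ #Large := Finset.card_image_le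
    have h3 : #(Large.image (fun ξ => dot ξ ω)) ≤ #Large := Finset.card_image_le
    have h4 : #R ≤ #(Large.image Prod.fst ∪ Large.image Prod.snd) +
      #(Large.image (fun ξ => dot ξ ω)) := Finset.card_union_le _ _
    have h5 : #(Large.image Prod.fst ∪ Large.image Prod.snd) ≤
      #(Large.image Prod.fst) + #(Large.image Prod.snd) := Finset.card_union_le _ _
    omega
  obtain ⟨T, hT0, hTcard, hTe, hTint⟩ := exists_bohr R K L hKM hLpos
  have hTne : T.Nonempty := ⟨0, hT0⟩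
  have hTpos : (0 : ℝ) < #T := Nat.cast_pos.mpr hTne.card_pos
  set β := beta δ L l₁ with hβ
  have hβpos : 0 < β := by
    rw [hβ]; unfold beta; positivity
  have hpow : (L : ℝ) ^ #R ≤ (L : ℝ) ^ nfreq l₁ := pow_le_pow_right₀ hL1 hRcard
  have hTβ : β * M ≤ #T := by
    refine le_trans ?_ hTcard
    rw [hβ]
    unfold beta
    rw [div_mul_eq_mul_div]
    calc δ * M / (L : ℝ) ^ nfreq l₁ ≤ ((K : ℝ) + 1) / (L : ℝ) ^ nfreq l₁ :=
          div_le_div_of_nonneg_right hKδ (by positivity)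
      _ ≤ ((K : ℝ) + 1) / (L : ℝ) ^ #R :=
          div_le_div_of_nonneg_left (by positivity) (by positivity) hpow
  have hβ1 : β ≤ 1 := by
    rw [hβ]
    unfold beta
    rw [div_le_one (by positivity)]
    exact hδ1.trans (one_le_pow₀ hL1)
  have hl₂le : l₂ ≤ ε * β ^ 2 := lamSeq_le ε δ L i
  have S : Spec T f ε l₁ l₂ :=
    { hT := hTne
      hf0 := hf0
      hf1 := hf1
      hε := hε
      hl₂ := hl₂pos
      hMed := hband
      hSmall := by
        have h1 : (M : ℝ) / #T ≤ 1 / β := by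
          rw [div_le_div_iff₀ hTpos hβpos]
          linarith
        have h2 : 0 ≤ (M : ℝ) / #T := by positivity
        calc l₂ * ((M : ℝ) / #T) ^ 2 ≤ (ε * β ^ 2) * (1 / β) ^ 2 := by
              apply mul_le_mul hl₂le _ (by positivity) (by positivity)
              exact pow_le_pow_left₀ h2 h1 2
          _ = ε := by field_simp }
  refine ⟨T, hT0, ?_, hTint, ?_⟩
  · have h1 : lamSeq ε δ L J ≤ l₂ := antitone_le _ (lamSeq_anti ε δ L) hiJ
    have h2 : lamSeq ε δ L J ≤ ε * β := by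
      refine (h1.trans hl₂le).trans ?_
      have : β ^ 2 ≤ β := by nlinarith
      exact mul_le_mul_of_nonneg_left this hε.le
    calc lamSeq ε δ L J * M ≤ ε * β * M := mul_le_mul_of_nonneg_right h2 hM.le
      _ = ε * (β * M) := by ring
      _ ≤ ε * #T := mul_le_mul_of_nonneg_left hTβ hε.le
  · refine LamR_main S ω hω hT0 ?_
    intro ξ hξ t₁ h₁ t₂ h₂
    have hξL : ξ ∈ Large := Finset.mem_filter.mpr ⟨Finset.mem_univ _, hξ⟩
    refine ⟨(hTe t₁ h₁ t₂ h₂ _ ?_).trans hL, (hTe t₁ h₁ t₂ h₂ _ ?_).trans hL,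
      (hTe t₁ h₁ t₂ h₂ _ ?_).trans hL⟩
    · exact Finset.mem_union_left _ (Finset.mem_union_left _ (Finset.mem_image_of_mem _ hξL))
    · exact Finset.mem_union_left _ (Finset.mem_union_right _ (Finset.mem_image_of_mem _ hξL))
    · exact Finset.mem_union_right _ (Finset.mem_image_of_mem (fun ξ => dot ξ ω) hξL)

/-- Off-diagonal extraction. -/
lemma exists_offdiag {M : ℕ} [NeZero M] {T : Finset (ZMod M)} (hT : T.Nonempty)
    {f : ZMod M × ZMod M → ℝ} (hf0 : ∀ x, 0 ≤ f x) (hf1 : ∀ x, f x ≤ 1)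
    (ω : ZMod M × ZMod M) {c : ℝ} (hc : 0 ≤ c) (h : c + 1 / (#T : ℝ) < LamR T ω f f) :
    ∃ s₁ ∈ T, ∃ s₂ ∈ T, ∃ t₁ ∈ T, ∃ t₂ ∈ T, t₁ ≠ t₂ ∧
      c < avg (fun x => f x * f (x + mulw (t₁ - t₂) ω) * f (x + (s₁ - s₂, t₁ - t₂))) := by
  classical
  have hpos : (0 : ℝ) < #T := Nat.cast_pos.mpr hT.card_pos
  by_contra hcon
  push Not at hcon
  have h1 : LamR T ω f f ≤ av4 T (fun _ _ t₁ t₂ => c + if t₁ = t₂ then 1 else 0) := by
    unfold LamR
    apply av4_mono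
    intro s₁ h₁ s₂ h₂ t₁ h₃ t₂ h₄
    by_cases ht : t₁ = t₂
    · rw [if_pos ht]
      have h5 : avg (fun x => f x * f (x + mulw (t₁ - t₂) ω) * f (x + (s₁ - s₂, t₁ - t₂)))
          ≤ avg (fun _ : ZMod M × ZMod M => (1 : ℝ)) := by
        apply avg_mono
        intro x
        have a1 := hf0 x
        have a2 := hf1 x
        have b1 := hf0 (x + mulw (t₁ - t₂) ω)
        have b2 := hf1 (x + mulw (t₁ - t₂) ω)
        have c1 := hf0 (x + (s₁ - s₂, t₁ - t₂))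
        have c2 := hf1 (x + (s₁ - s₂, t₁ - t₂))
        calc f x * f (x + mulw (t₁ - t₂) ω) * f (x + (s₁ - s₂, t₁ - t₂)) ≤ 1 * 1 * 1 :=
              mul_le_mul (mul_le_mul a2 b2 b1 zero_le_one) c2 c1 (by norm_num)
          _ = 1 := by norm_num
      rw [avg_const] at h5
      linarith
    · rw [if_neg ht, add_zero]
      exact hcon s₁ h₁ s₂ h₂ t₁ h₃ t₂ h₄ ht
  have h2 : av4 T (fun _ _ t₁ t₂ => c + if t₁ = t₂ then 1 else 0) = c + 1 / (#T : ℝ) := by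
    unfold av4
    have h3 : ∀ t₁ ∈ T, ∑ t₂ ∈ T, (c + if t₁ = t₂ then (1 : ℝ) else 0) = #T * c + 1 := by
      intro t₁ ht₁
      rw [Finset.sum_add_distrib, Finset.sum_const, nsmul_eq_mul, Finset.sum_ite_eq, if_pos ht₁]
    rw [Finset.sum_congr rfl fun s₁ _ => Finset.sum_congr rfl fun s₂ _ =>
      Finset.sum_congr rfl h3]
    simp only [Finset.sum_const, nsmul_eq_mul]
    field_simp
  linarith

end Pool.Agent.MP_952e97_co
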