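import Pool.Agent.Lib.MP_952e97_co.Fourier

set_option autoImplicit false

namespace Pool.Agent.MP_952e97_co

open Finset
open scoped BigOperators ComplexConjugate

variable {M : ℕ} [NeZero M]

/-- The point `t • ω`. -/
def mulw (t : ZMod M) (ω : ZMod M × ZMod M) : ZMod M × ZMod M := (t * ω.1, t * ω.2)

/-- dot product -/
def dot (ξ ω : ZMod M × ZMod M) : ZMod M := ξ.1 * ω.1 + ξ.2 * ω.2

lemma chi_mulw (ξ ω : ZMod M × ZMod M) (t : ZMod M) : chi ξ (mulw t ω) = e (dot ξ ω * t) := by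
  unfold chi mulw dot; congr 1; ring

lemma chi_pair (ξ : ZMod M × ZMod M) (s t : ZMod M) : chi ξ (s, t) = e (ξ.1 * s) * e (ξ.2 * t) := by
  unfold chi; rw [e_add]

/-- The trilinear form with complex third entry. -/
noncomputable def Lam (T : Finset (ZMod M)) (ω : ZMod M × ZMod M) (f : ZMod M × ZMod M → ℝ)
    (h : ZMod M × ZMod M → ℂ) : ℂ :=
  (∑ s₁ ∈ T, ∑ s₂ ∈ T, ∑ t₁ ∈ T, ∑ t₂ ∈ T,
    avgC (fun x => (f x : ℂ) * (f (x + mulw (t₁ - t₂) ω) : ℂ) * h (x + (s₁ - s₂, t₁ - t₂))))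
    / (#T : ℂ) ^ 4

/-- Fourier coefficients of a real function. -/
noncomputable def fhat (f : ZMod M × ZMod M → ℝ) : ZMod M × ZMod M → ℂ :=
  hat (fun x => (f x : ℂ))

lemma f_expand (f : ZMod M × ZMod M → ℝ) (x : ZMod M × ZMod M) :
    (f x : ℂ) = ∑ ξ, fhat f ξ * chi ξ x := (inversion (fun x => (f x : ℂ)) x).symm

lemma sum_diff (T : Finset (ZMod M)) (hT : T.Nonempty) (r : ZMod M) :
    ∑ s₁ ∈ T, ∑ s₂ ∈ T, e (r * (s₁ - s₂)) = ((#T : ℂ)) ^ 2 * ((‖nu T r‖ ^ 2 : ℝ) : ℂ) := by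
  have hne : ((#T : ℕ) : ℂ) ≠ 0 := Nat.cast_ne_zero.mpr hT.card_pos.ne'
  have h1 : ∑ s₁ ∈ T, ∑ s₂ ∈ T, e (r * (s₁ - s₂))
      = (∑ t ∈ T, e (r * t)) * conj (∑ t ∈ T, e (r * t)) := by
    rw [map_sum, Finset.sum_mul_sum]
    refine Finset.sum_congr rfl fun t _ => Finset.sum_congr rfl fun t' _ => ?_
    rw [mul_sub, e_sub]
  have h2 : (∑ t ∈ T, e (r * t)) = (#T : ℂ) * nu T r := by
    unfold nu
    field_simp
  rw [h1, h2, map_mul, ← Complex.normSq_eq_norm_sq, ← Complex.mul_conj]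
  simp only [Complex.conj_natCast]
  ring

lemma avgC_sum {ι : Type*} (s : Finset ι) (h : ι → ZMod M × ZMod M → ℂ) :
    avgC (fun x => ∑ i ∈ s, h i x) = ∑ i ∈ s, avgC (h i) := by
  unfold avgC
  rw [Finset.sum_comm, Finset.sum_div]

lemma avgC_mul_left (c : ℂ) (h : ZMod M × ZMod M → ℂ) :
    avgC (fun x => c * h x) = c * avgC h := by
  unfold avgC
  rw [← Finset.mul_sum, mul_div_assoc]

lemma avgC_shift_expand (f : ZMod M × ZMod M → ℝ) (ω η : ZMod M × ZMod M) (s t : ZMod M) :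
    avgC (fun x => (f x : ℂ) * (f (x + mulw t ω) : ℂ) * chi η (x + (s, t)))
      = ∑ ζ, fhat f ζ * fhat f (-(η + ζ)) * (e (η.1 * s) * e ((η.2 + dot ζ ω) * t)) := by
  have h1 : (fun x : ZMod M × ZMod M =>
      (f x : ℂ) * (f (x + mulw t ω) : ℂ) * chi η (x + (s, t)))
      = fun x => ∑ ζ, (fhat f ζ * (e (η.1 * s) * e ((η.2 + dot ζ ω) * t))) *
          ((f x : ℂ) * conj (chi (-(η + ζ)) x)) := by
    funext x
    rw [f_expand f (x + mulw t ω), Finset.mul_sum, Finset.sum_mul]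
    refine Finset.sum_congr rfl fun ζ _ => ?_
    rw [chi_add_right ζ, chi_add_right η, chi_mulw, chi_pair η s t, chi_neg_left,
      Complex.conj_conj, chi_add_left, add_mul η.2, e_add]
    ring
  rw [h1, avgC_sum]
  refine Finset.sum_congr rfl fun ζ _ => ?_
  rw [avgC_mul_left]
  unfold fhat hat
  ring

lemma Lam_chi (T : Finset (ZMod M)) (hT : T.Nonempty) (ω : ZMod M × ZMod M)
    (f : ZMod M × ZMod M → ℝ) (η : ZMod M × ZMod M) :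
    Lam T ω f (chi η) = ((‖nu T η.1‖ ^ 2 : ℝ) : ℂ) *
      ∑ ζ, fhat f ζ * fhat f (-(η + ζ)) * ((‖nu T (η.2 + dot ζ ω)‖ ^ 2 : ℝ) : ℂ) := by
  have hne : ((#T : ℕ) : ℂ) ≠ 0 := Nat.cast_ne_zero.mpr hT.card_pos.ne'
  unfold Lam
  simp only [avgC_shift_expand]
  have h1 : (∑ s₁ ∈ T, ∑ s₂ ∈ T, ∑ t₁ ∈ T, ∑ t₂ ∈ T, ∑ ζ, fhat f ζ * fhat f (-(η + ζ)) *
        (e (η.1 * (s₁ - s₂)) * e ((η.2 + dot ζ ω) * (t₁ - t₂))))
      = (∑ s₁ ∈ T, ∑ s₂ ∈ T, e (η.1 * (s₁ - s₂))) * ∑ ζ, fhat f ζ * fhat f (-(η + ζ)) *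
          ∑ t₁ ∈ T, ∑ t₂ ∈ T, e ((η.2 + dot ζ ω) * (t₁ - t₂)) := by
    rw [Finset.sum_mul]
    refine Finset.sum_congr rfl fun s₁ _ => ?_
    rw [Finset.sum_mul]
    refine Finset.sum_congr rfl fun s₂ _ => ?_
    rw [Finset.mul_sum]
    have : ∀ t₁ ∈ T, ∑ t₂ ∈ T, ∑ ζ, fhat f ζ * fhat f (-(η + ζ)) *
        (e (η.1 * (s₁ - s₂)) * e ((η.2 + dot ζ ω) * (t₁ - t₂)))
        = ∑ ζ, ∑ t₂ ∈ T, fhat f ζ * fhat f (-(η + ζ)) *
        (e (η.1 * (s₁ - s₂)) * e ((η.2 + dot ζ ω) * (t₁ - t₂))) := fun t₁ _ => Finset.sum_comm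
    rw [Finset.sum_congr rfl this, Finset.sum_comm]
    refine Finset.sum_congr rfl fun ζ _ => ?_
    rw [Finset.mul_sum, Finset.mul_sum]
    refine Finset.sum_congr rfl fun t₁ _ => ?_
    rw [Finset.mul_sum, Finset.mul_sum]
    refine Finset.sum_congr rfl fun t₂ _ => ?_
    ring
  rw [h1, sum_diff T hT]
  simp only [sum_diff T hT]
  rw [div_eq_iff (pow_ne_zero 4 hne), Finset.mul_sum, Finset.mul_sum, Finset.sum_mul]
  refine Finset.sum_congr rfl fun ζ _ => ?_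
  ring

lemma sum_nu_prod (T : Finset (ZMod M)) (hT : T.Nonempty) :
    ∑ ξ : ZMod M × ZMod M, ‖nu T ξ.1‖ ^ 2 * ‖nu T ξ.2‖ ^ 2 = ((M : ℝ) / #T) ^ 2 := by
  rw [Fintype.sum_prod_type]
  simp only
  rw [← Finset.sum_mul_sum, sum_nu_sq T hT]
  ring

/-- Sum of the absolute values of the form at characters. -/
lemma sum_Lam_chi_le (T : Finset (ZMod M)) (hT : T.Nonempty) (ω : ZMod M × ZMod M)
    (hω : IsUnit (1 - ω.2)) (f : ZMod M × ZMod M → ℝ) (hf : ∑ ξ, ‖fhat f ξ‖ ^ 2 ≤ 1) :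
    ∑ η, ‖Lam T ω f (chi η)‖ ≤ ((M : ℝ) / #T) ^ 2 := by
  have h1 : ∀ η : ZMod M × ZMod M, ‖Lam T ω f (chi η)‖ ≤
      ∑ ζ, ((‖fhat f ζ‖ ^ 2 + ‖fhat f (-(η + ζ))‖ ^ 2) / 2) *
        (‖nu T η.1‖ ^ 2 * ‖nu T (η.2 + dot ζ ω)‖ ^ 2) := by
    intro η
    rw [Lam_chi T hT, norm_mul, Complex.norm_real, Real.norm_of_nonneg (by positivity)]
    rw [show (∑ ζ, ((‖fhat f ζ‖ ^ 2 + ‖fhat f (-(η + ζ))‖ ^ 2) / 2) *
        (‖nu T η.1‖ ^ 2 * ‖nu T (η.2 + dot ζ ω)‖ ^ 2)) = ‖nu T η.1‖ ^ 2 *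
        ∑ ζ, ((‖fhat f ζ‖ ^ 2 + ‖fhat f (-(η + ζ))‖ ^ 2) / 2) * ‖nu T (η.2 + dot ζ ω)‖ ^ 2 by
      rw [Finset.mul_sum]; exact Finset.sum_congr rfl fun ζ _ => by ring]
    refine mul_le_mul_of_nonneg_left ?_ (by positivity)
    refine (norm_sum_le _ _).trans (Finset.sum_le_sum fun ζ _ => ?_)
    rw [norm_mul, norm_mul, Complex.norm_real, Real.norm_of_nonneg (by positivity)]
    refine mul_le_mul_of_nonneg_right ?_ (by positivity)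
    nlinarith [sq_nonneg (‖fhat f ζ‖ - ‖fhat f (-(η + ζ))‖)]
  refine (Finset.sum_le_sum fun η _ => h1 η).trans ?_
  -- split in two sums
  have h2 : (∑ η : ZMod M × ZMod M, ∑ ζ, ((‖fhat f ζ‖ ^ 2 + ‖fhat f (-(η + ζ))‖ ^ 2) / 2) *
        (‖nu T η.1‖ ^ 2 * ‖nu T (η.2 + dot ζ ω)‖ ^ 2))
      = (1 / 2) * (∑ ζ, ‖fhat f ζ‖ ^ 2 * ∑ η : ZMod M × ZMod M,
          ‖nu T η.1‖ ^ 2 * ‖nu T (η.2 + dot ζ ω)‖ ^ 2)
        + (1 / 2) * (∑ θ, ‖fhat f (-θ)‖ ^ 2 * ∑ η : ZMod M × ZMod M,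
          ‖nu T η.1‖ ^ 2 * ‖nu T (η.2 + dot (θ - η) ω)‖ ^ 2) := by
    have e1 : (∑ η : ZMod M × ZMod M, ∑ ζ, ((‖fhat f ζ‖ ^ 2 + ‖fhat f (-(η + ζ))‖ ^ 2) / 2) *
        (‖nu T η.1‖ ^ 2 * ‖nu T (η.2 + dot ζ ω)‖ ^ 2))
        = (1 / 2) * (∑ η : ZMod M × ZMod M, ∑ ζ, ‖fhat f ζ‖ ^ 2 * (‖nu T η.1‖ ^ 2 * ‖nu T (η.2 + dot ζ ω)‖ ^ 2))
        + (1 / 2) * (∑ η : ZMod M × ZMod M, ∑ ζ, ‖fhat f (-(η + ζ))‖ ^ 2 *
          (‖nu T η.1‖ ^ 2 * ‖nu T (η.2 + dot ζ ω)‖ ^ 2)) := by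
      rw [← mul_add, ← Finset.sum_add_distrib, Finset.mul_sum]
      refine Finset.sum_congr rfl fun η _ => ?_
      rw [← Finset.sum_add_distrib, Finset.mul_sum]
      refine Finset.sum_congr rfl fun ζ _ => ?_
      ring
    rw [e1]
    congr 2
    · rw [Finset.sum_comm]
      refine Finset.sum_congr rfl fun ζ _ => ?_
      rw [Finset.mul_sum]
    · have e2 : ∀ η : ZMod M × ZMod M, ∑ ζ, ‖fhat f (-(η + ζ))‖ ^ 2 *
          (‖nu T η.1‖ ^ 2 * ‖nu T (η.2 + dot ζ ω)‖ ^ 2)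
          = ∑ θ, ‖fhat f (-θ)‖ ^ 2 *
          (‖nu T η.1‖ ^ 2 * ‖nu T (η.2 + dot (θ - η) ω)‖ ^ 2) := by
        intro η
        refine Fintype.sum_equiv (Equiv.addLeft η) _ _ fun ζ => ?_
        simp only [Equiv.coe_addLeft, add_sub_cancel_left]
      rw [Finset.sum_congr rfl fun η _ => e2 η, Finset.sum_comm]
      refine Finset.sum_congr rfl fun θ _ => ?_
      rw [Finset.mul_sum]
  rw [h2]
  have h3 : ∀ ζ : ZMod M × ZMod M, ∑ η : ZMod M × ZMod M,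
      ‖nu T η.1‖ ^ 2 * ‖nu T (η.2 + dot ζ ω)‖ ^ 2 = ((M : ℝ) / #T) ^ 2 := by
    intro ζ
    rw [← sum_nu_prod T hT]
    refine Fintype.sum_equiv ((Equiv.refl _).prodCongr (Equiv.addRight (dot ζ ω))) _ _
      fun η => ?_
    simp
  have h4 : ∀ θ : ZMod M × ZMod M, ∑ η : ZMod M × ZMod M,
      ‖nu T η.1‖ ^ 2 * ‖nu T (η.2 + dot (θ - η) ω)‖ ^ 2 = ((M : ℝ) / #T) ^ 2 := by
    intro θ
    rw [← sum_nu_prod T hT, Fintype.sum_prod_type, Fintype.sum_prod_type]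
    refine Finset.sum_congr rfl fun a _ => ?_
    simp only
    rw [← Finset.mul_sum, ← Finset.mul_sum]
    congr 1
    obtain ⟨c, hc⟩ := hω
    refine Fintype.sum_equiv ((Units.mulLeft c).trans (Equiv.addRight (dot (θ - (a, 0)) ω))) _ _
      fun b => ?_
    simp only [Equiv.trans_apply, Units.mulLeft_apply, Equiv.coe_addRight, dot, hc,
      Prod.fst_sub, Prod.snd_sub]
    congr 3
    ring
  simp only [h3, h4]
  rw [← Finset.sum_mul, ← Finset.sum_mul]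
  have h5 : ∑ θ, ‖fhat f (-θ)‖ ^ 2 = ∑ θ, ‖fhat f θ‖ ^ 2 :=
    Fintype.sum_equiv (Equiv.neg _) _ _ fun θ => by simp
  rw [h5]
  have h6 : 0 ≤ ((M : ℝ) / #T) ^ 2 := by positivity
  nlinarith

end Pool.Agent.MP_952e97_co
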