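import Mathlib

set_option autoImplicit false

namespace Pool.Agent.MP_952e97_co

open Finset
open scoped BigOperators ComplexConjugate

variable {M : ℕ} [NeZero M]

/-- The standard additive character of `ZMod M`. -/
noncomputable def e (a : ZMod M) : ℂ := ZMod.stdAddChar a

lemma e_zero : e (0 : ZMod M) = 1 := AddChar.map_zero_eq_one _

lemma e_add (a b : ZMod M) : e (a + b) = e a * e b := AddChar.map_add_eq_mul _ _ _

lemma norm_e (a : ZMod M) : ‖e a‖ = 1 := by
  unfold e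
  rw [ZMod.stdAddChar_apply]
  exact Circle.norm_coe _

lemma e_ne_zero (a : ZMod M) : e a ≠ 0 := by
  intro h
  have := norm_e a
  rw [h] at this
  simp at this

lemma e_neg (a : ZMod M) : e (-a) = conj (e a) := by
  have h1 : e (-a) * e a = 1 := by rw [← e_add]; simp [e_zero]
  have h2 : conj (e a) * e a = 1 := by
    rw [mul_comm, Complex.mul_conj, Complex.normSq_eq_norm_sq, norm_e]; simp
  have h3 := e_ne_zero a
  exact mul_right_cancel₀ h3 (h1.trans h2.symm)

lemma e_sub (a b : ZMod M) : e (a - b) = e a * conj (e b) := by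
  rw [sub_eq_add_neg, e_add, e_neg]

lemma sum_e (b : ZMod M) : ∑ a : ZMod M, e (a * b) = if b = 0 then (M : ℂ) else 0 := by
  have := AddChar.sum_mulShift (R := ZMod M) (R' := ℂ) b (ZMod.isPrimitive_stdAddChar M)
  unfold e
  rw [this]
  simp

/-- The character of `(ZMod M)²` with frequency `ξ`. -/
noncomputable def chi (ξ x : ZMod M × ZMod M) : ℂ := e (ξ.1 * x.1 + ξ.2 * x.2)

lemma norm_chi (ξ x : ZMod M × ZMod M) : ‖chi ξ x‖ = 1 := norm_e _

lemma chi_comm (ξ x : ZMod M × ZMod M) : chi ξ x = chi x ξ := by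
  unfold chi; congr 1; ring

lemma chi_add_right (ξ x y : ZMod M × ZMod M) : chi ξ (x + y) = chi ξ x * chi ξ y := by
  unfold chi; rw [← e_add]; congr 1; simp only [Prod.fst_add, Prod.snd_add]; ring

lemma chi_add_left (ξ η x : ZMod M × ZMod M) : chi (ξ + η) x = chi ξ x * chi η x := by
  rw [chi_comm, chi_add_right, chi_comm x, chi_comm x]

lemma chi_neg_right (ξ x : ZMod M × ZMod M) : chi ξ (-x) = conj (chi ξ x) := by
  unfold chi; rw [← e_neg]; congr 1; simp only [Prod.fst_neg, Prod.snd_neg]; ring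

lemma chi_neg_left (ξ x : ZMod M × ZMod M) : chi (-ξ) x = conj (chi ξ x) := by
  rw [chi_comm, chi_neg_right, chi_comm]

lemma sum_chi (ξ : ZMod M × ZMod M) :
    ∑ x : ZMod M × ZMod M, chi ξ x = if ξ = 0 then (M : ℂ) ^ 2 else 0 := by
  have h1 : ∑ x : ZMod M × ZMod M, chi ξ x
      = (∑ a : ZMod M, e (a * ξ.1)) * (∑ b : ZMod M, e (b * ξ.2)) := by
    rw [Fintype.sum_prod_type, Finset.sum_mul_sum]
    refine Finset.sum_congr rfl fun a _ => Finset.sum_congr rfl fun b _ => ?_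
    unfold chi
    rw [e_add, mul_comm a, mul_comm b]
  rw [h1, sum_e, sum_e]
  by_cases ha : ξ.1 = 0 <;> by_cases hb : ξ.2 = 0
  · have : ξ = 0 := Prod.ext ha hb
    simp [this, sq]
  · have : ξ ≠ 0 := fun h => hb (by rw [h]; rfl)
    simp [ha, hb, this]
  · have : ξ ≠ 0 := fun h => ha (by rw [h]; rfl)
    simp [ha, this]
  · have : ξ ≠ 0 := fun h => ha (by rw [h]; rfl)
    simp [ha, this]

lemma card_G : Fintype.card (ZMod M × ZMod M) = M ^ 2 := by
  rw [Fintype.card_prod, ZMod.card, sq]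

lemma M_ne : (M : ℂ) ≠ 0 := Nat.cast_ne_zero.mpr (NeZero.ne M)

lemma M_pos : (0 : ℝ) < M := Nat.cast_pos.mpr (Nat.pos_of_ne_zero (NeZero.ne M))

/-- Average over `(ZMod M)²` of a complex function. -/
noncomputable def avgC (h : ZMod M × ZMod M → ℂ) : ℂ := (∑ x, h x) / (M : ℂ) ^ 2

/-- Average over `(ZMod M)²` of a real function. -/
noncomputable def avg (h : ZMod M × ZMod M → ℝ) : ℝ := (∑ x, h x) / (M : ℝ) ^ 2

lemma avgC_chi (ξ : ZMod M × ZMod M) : avgC (chi ξ) = if ξ = 0 then 1 else 0 := by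
  unfold avgC
  rw [sum_chi]
  split_ifs
  · exact div_self (pow_ne_zero 2 M_ne)
  · simp

/-- Fourier coefficient. -/
noncomputable def hat (h : ZMod M × ZMod M → ℂ) (ξ : ZMod M × ZMod M) : ℂ :=
  avgC (fun x => h x * conj (chi ξ x))

lemma inversion (h : ZMod M × ZMod M → ℂ) (x : ZMod M × ZMod M) :
    ∑ ξ, hat h ξ * chi ξ x = h x := by
  unfold hat avgC
  have h1 : ∀ ξ : ZMod M × ZMod M, (∑ y, h y * conj (chi ξ y)) / (M : ℂ) ^ 2 * chi ξ x
      = ∑ y, h y / (M : ℂ) ^ 2 * chi (x - y) ξ := by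
    intro ξ
    rw [Finset.sum_div, Finset.sum_mul]
    refine Finset.sum_congr rfl fun y _ => ?_
    rw [sub_eq_add_neg, chi_add_left, chi_neg_left, chi_comm x, chi_comm y]
    ring
  rw [Finset.sum_congr rfl fun ξ _ => h1 ξ, Finset.sum_comm]
  have h2 : ∀ y : ZMod M × ZMod M, ∑ ξ, h y / (M : ℂ) ^ 2 * chi (x - y) ξ
      = if x = y then h y else 0 := by
    intro y
    rw [← Finset.mul_sum, sum_chi]
    by_cases hxy : x = y
    · subst hxy
      simp only [sub_self, if_true]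
      rw [div_mul_cancel₀]
      exact pow_ne_zero 2 M_ne
    · rw [if_neg (sub_ne_zero.mpr hxy), if_neg hxy, mul_zero]
  rw [Finset.sum_congr rfl fun y _ => h2 y]
  simp

/-- Parseval for trigonometric polynomials. -/
lemma parseval (c : ZMod M × ZMod M → ℂ) :
    avg (fun x => ‖∑ ξ, c ξ * chi ξ x‖ ^ 2) = ∑ ξ, ‖c ξ‖ ^ 2 := by
  have key : avgC (fun x => (∑ ξ, c ξ * chi ξ x) * conj (∑ ξ, c ξ * chi ξ x))
      = ∑ ξ, c ξ * conj (c ξ) := by
    have h1 : ∀ x : ZMod M × ZMod M, (∑ ξ, c ξ * chi ξ x) * conj (∑ ξ, c ξ * chi ξ x)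
        = ∑ ξ, ∑ η, c ξ * conj (c η) * chi (ξ - η) x := by
      intro x
      rw [map_sum, Finset.sum_mul_sum]
      refine Finset.sum_congr rfl fun ξ _ => Finset.sum_congr rfl fun η _ => ?_
      rw [map_mul, sub_eq_add_neg, chi_add_left, chi_neg_left]
      ring
    unfold avgC
    rw [Finset.sum_congr rfl fun x _ => h1 x, Finset.sum_comm]
    have h2 : ∀ ξ : ZMod M × ZMod M, ∑ x, ∑ η, c ξ * conj (c η) * chi (ξ - η) x
        = c ξ * conj (c ξ) * (M : ℂ) ^ 2 := by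
      intro ξ
      rw [Finset.sum_comm]
      have h3 : ∀ η : ZMod M × ZMod M, ∑ x, c ξ * conj (c η) * chi (ξ - η) x
          = if ξ = η then c ξ * conj (c η) * (M : ℂ) ^ 2 else 0 := by
        intro η
        rw [← Finset.mul_sum, sum_chi]
        by_cases h : ξ = η
        · subst h; simp
        · rw [if_neg (sub_ne_zero.mpr h), if_neg h, mul_zero]
      rw [Finset.sum_congr rfl fun η _ => h3 η]
      simp
    rw [Finset.sum_congr rfl fun ξ _ => h2 ξ, ← Finset.sum_mul, mul_div_assoc,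
      div_self (pow_ne_zero 2 M_ne), mul_one]
  have hc : ∀ z : ℂ, z * conj z = ((‖z‖ ^ 2 : ℝ) : ℂ) := fun z => by
    rw [Complex.mul_conj, Complex.normSq_eq_norm_sq]
  unfold avgC at key
  simp only [hc] at key
  unfold avg
  have : (((∑ x, ‖∑ ξ, c ξ * chi ξ x‖ ^ 2) / (M : ℝ) ^ 2 : ℝ) : ℂ)
      = ((∑ ξ, ‖c ξ‖ ^ 2 : ℝ) : ℂ) := by
    push_cast
    push_cast at key
    exact key
  exact_mod_cast this

lemma parseval_hat (h : ZMod M × ZMod M → ℂ) :
    ∑ ξ, ‖hat h ξ‖ ^ 2 = avg (fun x => ‖h x‖ ^ 2) := by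
  rw [← parseval]
  unfold avg
  congr 1
  refine Finset.sum_congr rfl fun x _ => ?_
  simp only [inversion]

/-- Normalised exponential sum over a set `T`. -/
noncomputable def nu (T : Finset (ZMod M)) (r : ZMod M) : ℂ := (∑ t ∈ T, e (r * t)) / (#T : ℂ)

lemma norm_nu_le (T : Finset (ZMod M)) (r : ZMod M) : ‖nu T r‖ ≤ 1 := by
  unfold nu
  rw [norm_div]
  rcases T.eq_empty_or_nonempty with h | h
  · simp [h]
  have hpos : (0 : ℝ) < #T := Nat.cast_pos.mpr h.card_pos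
  rw [Complex.norm_natCast, div_le_one hpos]
  calc ‖∑ t ∈ T, e (r * t)‖ ≤ ∑ t ∈ T, ‖e (r * t)‖ := norm_sum_le _ _
    _ = #T := by simp [norm_e]

lemma sum_nu_sq (T : Finset (ZMod M)) (hT : T.Nonempty) :
    ∑ r : ZMod M, ‖nu T r‖ ^ 2 = (M : ℝ) / #T := by
  have hpos : (0 : ℝ) < #T := Nat.cast_pos.mpr hT.card_pos
  have hne : ((#T : ℕ) : ℂ) ≠ 0 := Nat.cast_ne_zero.mpr hT.card_pos.ne'
  have key : ∑ r : ZMod M, (∑ t ∈ T, e (r * t)) * conj (∑ t ∈ T, e (r * t))
      = (M : ℂ) * #T := by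
    have h1 : ∀ r : ZMod M, (∑ t ∈ T, e (r * t)) * conj (∑ t ∈ T, e (r * t))
        = ∑ t ∈ T, ∑ t' ∈ T, e (r * (t - t')) := by
      intro r
      rw [map_sum, Finset.sum_mul_sum]
      refine Finset.sum_congr rfl fun t _ => Finset.sum_congr rfl fun t' _ => ?_
      rw [mul_sub, e_sub]
    rw [Finset.sum_congr rfl fun r _ => h1 r, Finset.sum_comm]
    have h2 : ∀ t ∈ T, ∑ r : ZMod M, ∑ t' ∈ T, e (r * (t - t')) = (M : ℂ) := by
      intro t ht
      rw [Finset.sum_comm]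
      have h3 : ∀ t' ∈ T, ∑ r : ZMod M, e (r * (t - t')) = if t = t' then (M : ℂ) else 0 := by
        intro t' _
        rw [sum_e]
        by_cases h : t = t'
        · subst h; simp
        · rw [if_neg (sub_ne_zero.mpr h), if_neg h]
      rw [Finset.sum_congr rfl h3]
      simp [ht]
    rw [Finset.sum_congr rfl h2, Finset.sum_const, nsmul_eq_mul, mul_comm]
  have hc : ∀ z : ℂ, z * conj z = ((‖z‖ ^ 2 : ℝ) : ℂ) := fun z => by
    rw [Complex.mul_conj, Complex.normSq_eq_norm_sq]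
  simp only [hc] at key
  have key' : ∑ r : ZMod M, ‖∑ t ∈ T, e (r * t)‖ ^ 2 = (M : ℝ) * #T := by
    exact_mod_cast key
  have h4 : ∀ r : ZMod M, ‖nu T r‖ ^ 2 = ‖∑ t ∈ T, e (r * t)‖ ^ 2 / (#T : ℝ) ^ 2 := by
    intro r
    unfold nu
    rw [norm_div, Complex.norm_natCast, div_pow]
  rw [Finset.sum_congr rfl fun r _ => h4 r, ← Finset.sum_div, key']
  field_simp

end Pool.Agent.MP_952e97_co
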