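import Pool.Agent.Lib.MP_952e97_co.Core

set_option autoImplicit false

namespace Pool.Agent.MP_952e97_co

open Finset
open scoped BigOperators ComplexConjugate

variable {M : ℕ} [NeZero M]

/-- Average of a function over `T⁴`. -/
noncomputable def av4 (T : Finset (ZMod M)) (φ : ZMod M → ZMod M → ZMod M → ZMod M → ℝ) : ℝ :=
  (∑ s₁ ∈ T, ∑ s₂ ∈ T, ∑ t₁ ∈ T, ∑ t₂ ∈ T, φ s₁ s₂ t₁ t₂) / (#T : ℝ) ^ 4

/-- The real trilinear form. -/
noncomputable def LamR (T : Finset (ZMod M)) (ω : ZMod M × ZMod M)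
    (f h : ZMod M × ZMod M → ℝ) : ℝ :=
  av4 T fun s₁ s₂ t₁ t₂ =>
    avg (fun x => f x * f (x + mulw (t₁ - t₂) ω) * h (x + (s₁ - s₂, t₁ - t₂)))

lemma LamR_coe (T : Finset (ZMod M)) (ω : ZMod M × ZMod M) (f h : ZMod M × ZMod M → ℝ) :
    (LamR T ω f h : ℂ) = Lam T ω f (fun x => (h x : ℂ)) := by
  unfold LamR Lam av4 avgC avg
  push_cast
  rfl

lemma Lam_add (T : Finset (ZMod M)) (ω : ZMod M × ZMod M) (f : ZMod M × ZMod M → ℝ)
    (h k : ZMod M × ZMod M → ℂ) :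
    Lam T ω f (fun x => h x + k x) = Lam T ω f h + Lam T ω f k := by
  unfold Lam avgC
  rw [← add_div]
  congr 1
  rw [← Finset.sum_add_distrib]
  refine Finset.sum_congr rfl fun s₁ _ => ?_
  rw [← Finset.sum_add_distrib]
  refine Finset.sum_congr rfl fun s₂ _ => ?_
  rw [← Finset.sum_add_distrib]
  refine Finset.sum_congr rfl fun t₁ _ => ?_
  rw [← Finset.sum_add_distrib]
  refine Finset.sum_congr rfl fun t₂ _ => ?_
  rw [← add_div, ← Finset.sum_add_distrib]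
  congr 1
  refine Finset.sum_congr rfl fun x _ => ?_
  ring

lemma Lam_smul (T : Finset (ZMod M)) (ω : ZMod M × ZMod M) (f : ZMod M × ZMod M → ℝ)
    (c : ℂ) (h : ZMod M × ZMod M → ℂ) :
    Lam T ω f (fun x => c * h x) = c * Lam T ω f h := by
  unfold Lam avgC
  rw [← mul_div_assoc]
  congr 1
  rw [Finset.mul_sum]
  refine Finset.sum_congr rfl fun s₁ _ => ?_
  rw [Finset.mul_sum]
  refine Finset.sum_congr rfl fun s₂ _ => ?_
  rw [Finset.mul_sum]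
  refine Finset.sum_congr rfl fun t₁ _ => ?_
  rw [Finset.mul_sum]
  refine Finset.sum_congr rfl fun t₂ _ => ?_
  rw [← mul_div_assoc, Finset.mul_sum]
  congr 1
  refine Finset.sum_congr rfl fun x _ => ?_
  ring

lemma Lam_zero (T : Finset (ZMod M)) (ω : ZMod M × ZMod M) (f : ZMod M × ZMod M → ℝ) :
    Lam T ω f (fun _ => 0) = 0 := by
  unfold Lam avgC
  simp

lemma Lam_sum {ι : Type*} (T : Finset (ZMod M)) (ω : ZMod M × ZMod M)
    (f : ZMod M × ZMod M → ℝ) (s : Finset ι) (c : ι → ℂ) (h : ι → ZMod M × ZMod M → ℂ) :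
    Lam T ω f (fun x => ∑ i ∈ s, c i * h i x) = ∑ i ∈ s, c i * Lam T ω f (h i) := by
  classical
  induction s using Finset.induction_on with
  | empty => simp [Lam_zero]
  | insert a s ha ih =>
    simp only [Finset.sum_insert ha]
    rw [Lam_add T ω f (fun x => c a * h a x), Lam_smul, ih]

lemma norm_Lam_le (T : Finset (ZMod M)) (hT : T.Nonempty) (ω : ZMod M × ZMod M)
    (f : ZMod M × ZMod M → ℝ) (hf0 : ∀ x, 0 ≤ f x) (hf1 : ∀ x, f x ≤ 1)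
    (h : ZMod M × ZMod M → ℂ) :
    ‖Lam T ω f h‖ ≤ avg (fun x => ‖h x‖) := by
  have hpos : (0 : ℝ) < #T := Nat.cast_pos.mpr hT.card_pos
  have h1 : ∀ s₁ s₂ t₁ t₂ : ZMod M, ‖avgC (fun x => (f x : ℂ) * (f (x + mulw (t₁ - t₂) ω) : ℂ) *
      h (x + (s₁ - s₂, t₁ - t₂)))‖ ≤ avg (fun x => ‖h x‖) := by
    intro s₁ s₂ t₁ t₂
    rw [← avg_shift (fun x => ‖h x‖) (s₁ - s₂, t₁ - t₂)]
    unfold avgC avg
    rw [norm_div, norm_pow, Complex.norm_natCast]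
    refine div_le_div_of_nonneg_right ((norm_sum_le _ _).trans (Finset.sum_le_sum fun x _ => ?_))
      (by positivity)
    rw [norm_mul, norm_mul, Complex.norm_real, Complex.norm_real, Real.norm_of_nonneg (hf0 _),
      Real.norm_of_nonneg (hf0 _)]
    have a1 := hf0 x
    have a2 := hf1 x
    have a3 := hf0 (x + mulw (t₁ - t₂) ω)
    have a4 := hf1 (x + mulw (t₁ - t₂) ω)
    have a5 : f x * f (x + mulw (t₁ - t₂) ω) ≤ 1 := by nlinarith
    calc f x * f (x + mulw (t₁ - t₂) ω) * ‖h (x + (s₁ - s₂, t₁ - t₂))‖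
        ≤ 1 * ‖h (x + (s₁ - s₂, t₁ - t₂))‖ := mul_le_mul_of_nonneg_right a5 (norm_nonneg _)
      _ = ‖h (x + (s₁ - s₂, t₁ - t₂))‖ := one_mul _
  unfold Lam
  rw [norm_div, norm_pow, Complex.norm_natCast, div_le_iff₀ (by positivity)]
  calc ‖∑ s₁ ∈ T, ∑ s₂ ∈ T, ∑ t₁ ∈ T, ∑ t₂ ∈ T, avgC (fun x => (f x : ℂ) *
        (f (x + mulw (t₁ - t₂) ω) : ℂ) * h (x + (s₁ - s₂, t₁ - t₂)))‖
      ≤ ∑ s₁ ∈ T, ∑ s₂ ∈ T, ∑ t₁ ∈ T, ∑ t₂ ∈ T, avg (fun x => ‖h x‖) := by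
        refine (norm_sum_le _ _).trans (Finset.sum_le_sum fun s₁ _ => ?_)
        refine (norm_sum_le _ _).trans (Finset.sum_le_sum fun s₂ _ => ?_)
        refine (norm_sum_le _ _).trans (Finset.sum_le_sum fun t₁ _ => ?_)
        refine (norm_sum_le _ _).trans (Finset.sum_le_sum fun t₂ _ => ?_)
        exact h1 s₁ s₂ t₁ t₂
    _ = avg (fun x => ‖h x‖) * (#T : ℝ) ^ 4 := by
        simp only [Finset.sum_const, nsmul_eq_mul]
        ring

/-- Replacing `f` by its local average in the third slot. -/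
lemma Lam_diff {T : Finset (ZMod M)} {f : ZMod M × ZMod M → ℝ} {ε l₁ l₂ : ℝ}
    (S : Spec T f ε l₁ l₂) (ω : ZMod M × ZMod M) (hω : IsUnit (1 - ω.2))
    (hν : ∀ ξ, l₁ ≤ ‖fhat f ξ‖ → ‖1 - nu T ξ.1 * nu T ξ.2‖ ≤ 2 * ε) :
    |LamR T ω f f - LamR T ω f (Fav T f)| ≤ 5 * ε := by
  classical
  have hε := S.hε
  have hl := S.hl₂
  set d : ZMod M × ZMod M → ℂ := fun ξ => fhat f ξ * (1 - nu T ξ.1 * nu T ξ.2) with hd
  have hν2 : ∀ ξ : ZMod M × ZMod M, ‖1 - nu T ξ.1 * nu T ξ.2‖ ≤ 2 := by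
    intro ξ
    calc ‖1 - nu T ξ.1 * nu T ξ.2‖ ≤ ‖(1 : ℂ)‖ + ‖nu T ξ.1 * nu T ξ.2‖ := norm_sub_le _ _
      _ ≤ 1 + 1 := by
          rw [norm_one, norm_mul]
          have h1 := norm_nu_le T ξ.1
          have h2 := norm_nu_le T ξ.2
          have h3 := norm_nonneg (nu T ξ.1)
          have h4 := norm_nonneg (nu T ξ.2)
          nlinarith
      _ = 2 := by norm_num
  -- decomposition
  have hdec : ∀ x : ZMod M × ZMod M, ((f x : ℂ) - (Fav T f x : ℂ))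
      = (∑ ξ, (if l₂ ≤ ‖fhat f ξ‖ then d ξ else 0) * chi ξ x)
        + ∑ ξ with ‖fhat f ξ‖ < l₂, d ξ * chi ξ x := by
    intro x
    rw [Fav_expand T S.hT, f_expand, ← Finset.sum_sub_distrib, Finset.sum_filter,
      ← Finset.sum_add_distrib]
    refine Finset.sum_congr rfl fun ξ _ => ?_
    rcases le_or_gt l₂ ‖fhat f ξ‖ with h | h
    · rw [if_pos h, if_neg (not_lt.mpr h), hd]; ring
    · rw [if_neg (not_le.mpr h), if_pos h, hd]; ring
  have hcoe : ((LamR T ω f f - LamR T ω f (Fav T f) : ℝ) : ℂ)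
      = Lam T ω f (fun x => ((f x : ℂ) - (Fav T f x : ℂ))) := by
    push_cast
    rw [LamR_coe, LamR_coe]
    have := Lam_add T ω f (fun x => ((f x : ℂ) - (Fav T f x : ℂ))) (fun x => (Fav T f x : ℂ))
    simp only [sub_add_cancel] at this
    rw [this]; ring
  have hnorm : |LamR T ω f f - LamR T ω f (Fav T f)|
      = ‖Lam T ω f (fun x => ((f x : ℂ) - (Fav T f x : ℂ)))‖ := by
    rw [← hcoe, Complex.norm_real, Real.norm_eq_abs]
  rw [hnorm]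
  have heq : (fun x => ((f x : ℂ) - (Fav T f x : ℂ)))
      = fun x => (∑ ξ, (if l₂ ≤ ‖fhat f ξ‖ then d ξ else 0) * chi ξ x)
        + ∑ ξ with ‖fhat f ξ‖ < l₂, d ξ * chi ξ x := funext hdec
  rw [heq, Lam_add]
  -- first part
  have hE1 : ‖Lam T ω f (fun x => ∑ ξ, (if l₂ ≤ ‖fhat f ξ‖ then d ξ else 0) * chi ξ x)‖
      ≤ 3 * ε := by
    refine (norm_Lam_le T S.hT ω f S.hf0 S.hf1 _).trans ?_
    refine avg_abs_le_of_coeff _ (fun ξ => if l₂ ≤ ‖fhat f ξ‖ then d ξ else 0) (fun x => rfl)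
      (by positivity) ?_
    have h1 : ∀ ξ : ZMod M × ZMod M, ‖(if l₂ ≤ ‖fhat f ξ‖ then d ξ else 0)‖ ^ 2 ≤
        4 * ε ^ 2 * ‖fhat f ξ‖ ^ 2 +
        4 * (if l₂ ≤ ‖fhat f ξ‖ ∧ ‖fhat f ξ‖ < l₁ then ‖fhat f ξ‖ ^ 2 else 0) := by
      intro ξ
      have hfn := norm_nonneg (fhat f ξ)
      have hA0 : 0 ≤ ‖fhat f ξ‖ ^ 2 := by positivity
      have hdn : ‖d ξ‖ ^ 2 = ‖fhat f ξ‖ ^ 2 * ‖1 - nu T ξ.1 * nu T ξ.2‖ ^ 2 := by
        rw [hd]; simp only [norm_mul, mul_pow]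
      rcases le_or_gt l₂ ‖fhat f ξ‖ with h | h
      · rw [if_pos h, hdn]
        rcases le_or_gt l₁ ‖fhat f ξ‖ with hL | hL
        · have h3 := hν ξ hL
          have h4 : ‖1 - nu T ξ.1 * nu T ξ.2‖ ^ 2 ≤ 4 * ε ^ 2 := by
            nlinarith [norm_nonneg (1 - nu T ξ.1 * nu T ξ.2)]
          have h5 : 0 ≤ 4 * (if l₂ ≤ ‖fhat f ξ‖ ∧ ‖fhat f ξ‖ < l₁ then ‖fhat f ξ‖ ^ 2 else 0) := by
            split_ifs <;> positivity
          nlinarith [mul_le_mul_of_nonneg_left h4 hA0]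
        · rw [if_pos ⟨h, hL⟩]
          have h3 := hν2 ξ
          have h4 : ‖1 - nu T ξ.1 * nu T ξ.2‖ ^ 2 ≤ 4 := by
            nlinarith [norm_nonneg (1 - nu T ξ.1 * nu T ξ.2)]
          have h5 : 0 ≤ 4 * ε ^ 2 * ‖fhat f ξ‖ ^ 2 := by positivity
          nlinarith [mul_le_mul_of_nonneg_left h4 hA0]
      · rw [if_neg (not_le.mpr h)]
        have h5 : 0 ≤ 4 * ε ^ 2 * ‖fhat f ξ‖ ^ 2 := by positivity
        have h6 : 0 ≤ 4 * (if l₂ ≤ ‖fhat f ξ‖ ∧ ‖fhat f ξ‖ < l₁ then ‖fhat f ξ‖ ^ 2 else 0) := by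
          split_ifs <;> positivity
        simp only [norm_zero]
        nlinarith
    refine (Finset.sum_le_sum fun ξ _ => h1 ξ).trans ?_
    rw [Finset.sum_add_distrib, ← Finset.mul_sum, ← Finset.mul_sum, ← Finset.sum_filter]
    have h2 := S.sum_le
    have h3 := S.hMed
    nlinarith [sq_nonneg ε]
  -- second part
  have hE2 : ‖Lam T ω f (fun x => ∑ ξ with ‖fhat f ξ‖ < l₂, d ξ * chi ξ x)‖ ≤ 2 * ε := by
    rw [Lam_sum]
    refine (norm_sum_le _ _).trans ?_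
    have h1 : ∀ ξ ∈ Finset.univ.filter (fun ξ : ZMod M × ZMod M => ‖fhat f ξ‖ < l₂),
        ‖d ξ * Lam T ω f (chi ξ)‖ ≤ 2 * l₂ * ‖Lam T ω f (chi ξ)‖ := by
      intro ξ hξ
      have hlt := (Finset.mem_filter.mp hξ).2
      rw [norm_mul]
      refine mul_le_mul_of_nonneg_right ?_ (norm_nonneg _)
      rw [hd]
      simp only [norm_mul]
      have h3 := hν2 ξ
      have h4 := norm_nonneg (fhat f ξ)
      have h5 := norm_nonneg (1 - nu T ξ.1 * nu T ξ.2)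
      nlinarith
    refine (Finset.sum_le_sum h1).trans ?_
    rw [← Finset.mul_sum]
    have h2 : ∑ ξ with ‖fhat f ξ‖ < l₂, ‖Lam T ω f (chi ξ)‖ ≤ ((M : ℝ) / #T) ^ 2 :=
      (Finset.sum_le_sum_of_subset_of_nonneg (Finset.filter_subset _ _)
        (fun _ _ _ => norm_nonneg _)).trans (sum_Lam_chi_le T S.hT ω hω f S.sum_le)
    have h3 := S.hSmall
    nlinarith
  calc _ ≤ _ := norm_add_le _ _
    _ ≤ 3 * ε + 2 * ε := add_le_add hE1 hE2
    _ = 5 * ε := by ring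

end Pool.Agent.MP_952e97_co
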