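import Pool.Agent.Lib.MP_952e97_co.Transfer

set_option autoImplicit false
set_option linter.unusedSectionVars false

namespace Pool.Agent.MP_952e97_co

open Finset
open scoped BigOperators ComplexConjugate

lemma abs_comb_le {K c : ℕ} {j k a b : ℤ} (hj : |j| ≤ K) (hk : |k| ≤ K)
    (hab : |a| + |b| ≤ c) : |j * a + k * b| ≤ ((c * K : ℕ) : ℤ) := by
  have h1 : |j * a + k * b| ≤ |j * a| + |k * b| := abs_add_le _ _
  rw [abs_mul, abs_mul] at h1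
  have h2 : |j| * |a| ≤ K * |a| := mul_le_mul_of_nonneg_right hj (abs_nonneg _)
  have h3 : |k| * |b| ≤ K * |b| := mul_le_mul_of_nonneg_right hk (abs_nonneg _)
  have h4 : (K : ℤ) * (|a| + |b|) ≤ K * c := mul_le_mul_of_nonneg_left hab (Int.natCast_nonneg K)
  push_cast
  nlinarith

lemma isUnit_of_dvd {D q M : ℕ} {x : ℤ} (hM : M = 1 + D * q) (hx : x ∣ (D : ℤ)) :
    IsUnit ((x : ℤ) : ZMod M) := by
  rw [ZMod.coe_int_isUnit_iff_isCoprime]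
  obtain ⟨c, hc⟩ := hx
  refine ⟨1, -(c * q), ?_⟩
  rw [hM]
  push_cast
  rw [hc]
  ring

lemma exists_omega {M : ℕ} (u v w : ℤ × ℤ) (h1 : IsUnit ((det2 u v : ℤ) : ZMod M))
    (h2 : IsUnit ((det2 u (w - v) : ℤ) : ZMod M)) :
    ∃ ω : ZMod M × ZMod M, phi M u v ω = proj M w ∧ IsUnit (1 - ω.2) := by
  obtain ⟨d, hd⟩ := h1.exists_right_inv
  have hdu : IsUnit d := IsUnit.of_mul_eq_one (det2 u v : ZMod M) (by rw [mul_comm]; exact hd)
  refine ⟨(d * (det2 w v : ℤ), d * (det2 u w : ℤ)), ?_, ?_⟩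
  · unfold det2 at hd ⊢
    unfold phi proj
    push_cast at hd ⊢
    ext
    · simp only
      linear_combination (w.1 : ZMod M) * hd
    · simp only
      linear_combination (w.2 : ZMod M) * hd
  · have h3 : 1 - d * ((det2 u w : ℤ) : ZMod M) = (-d) * ((det2 u (w - v) : ℤ) : ZMod M) := by
      unfold det2 at hd ⊢
      push_cast at hd ⊢
      simp only [Prod.fst_sub, Prod.snd_sub]
      push_cast
      linear_combination (-1 : ZMod M) * hd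
    simp only
    rw [h3]
    exact hdu.neg.mul h2

/-- Numerical inequality between the densities. -/
lemma density_ineq {α ε η ε₁ ρ a : ℝ} (hα : 0 < α) (hα1 : α ≤ 1)
    (hη0 : 0 ≤ η) (hη : 16 * η ≤ ε) (hη1 : 2 * η ≤ 1) (hε₁ : 416 * ε₁ ≤ ε) (hε : 0 < ε)
    (hρ1 : ρ ≤ 1) (hρ : 1 - η ≤ ρ) (ha : α * ρ ^ 2 ≤ a) :
    (α ^ 3 - ε) * ρ ^ 2 + 26 * ε₁ < a ^ 3 := by
  have hρh : 1 / 2 ≤ ρ := by linarith
  have hρ0 : 0 < ρ := by linarith
  have h1 : (α * ρ ^ 2) ^ 3 ≤ a ^ 3 := pow_le_pow_left₀ (by positivity) ha 3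
  have h2 : 1 - 2 * η ≤ ρ ^ 2 := by nlinarith
  have h3 : 1 - 4 * η ≤ (ρ ^ 2) ^ 2 := by nlinarith [sq_nonneg (ρ ^ 2)]
  have hα3 : α ^ 3 ≤ 1 := pow_le_one₀ hα.le hα1
  have hα30 : 0 < α ^ 3 := by positivity
  have h4 : α ^ 3 - 4 * η ≤ α ^ 3 * (ρ ^ 2) ^ 2 := by nlinarith
  have h5 : (α * ρ ^ 2) ^ 3 = (α ^ 3 * (ρ ^ 2) ^ 2) * ρ ^ 2 := by ring
  have h6 : 1 / 4 ≤ ρ ^ 2 := by nlinarith
  have h7 : (α ^ 3 - 4 * η) * ρ ^ 2 ≤ (α ^ 3 * (ρ ^ 2) ^ 2) * ρ ^ 2 :=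
    mul_le_mul_of_nonneg_right h4 (by positivity)
  have h8 : (ε - 4 * η) * (1 / 4) ≤ (ε - 4 * η) * ρ ^ 2 :=
    mul_le_mul_of_nonneg_left h6 (by linarith)
  nlinarith

lemma card_le_sq {N : ℕ} (A : Finset (ℤ × ℤ))
    (hA : ∀ a ∈ A, (1 ≤ a.1 ∧ a.1 ≤ N) ∧ (1 ≤ a.2 ∧ a.2 ≤ N)) : #A ≤ N ^ 2 := by
  have h1 : A ⊆ Finset.Icc (1 : ℤ) N ×ˢ Finset.Icc (1 : ℤ) N := by
    intro a ha
    have := hA a ha
    rw [Finset.mem_product, Finset.mem_Icc, Finset.mem_Icc]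
    exact this
  have h2 := Finset.card_le_card h1
  rw [Finset.card_product, Int.card_Icc] at h2
  simpa [sq] using h2

/-- The core theorem: popular differences for the pattern `x, x + s u + t v, x + t w`. -/
theorem core_pattern (u v w : ℤ × ℤ) (hD₁ : det2 u v ≠ 0) (hD₂ : det2 u (w - v) ≠ 0)
    (α ε : ℝ) (hα : 0 < α) (hε : 0 < ε) :
    ∃ N₀ : ℕ, ∀ N : ℕ, N₀ ≤ N → ∀ A : Finset (ℤ × ℤ),
      (∀ a ∈ A, (1 ≤ a.1 ∧ a.1 ≤ N) ∧ (1 ≤ a.2 ∧ a.2 ≤ N)) → α * (N : ℝ) ^ 2 ≤ #A →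
      ∃ j k : ℤ, k ≠ 0 ∧ (α ^ 3 - ε) * (N : ℝ) ^ 2 <
        #{a ∈ A | a + (j * u.1 + k * v.1, j * u.2 + k * v.2) ∈ A ∧
          a + (k * w.1, k * w.2) ∈ A} := by
  classical
  rcases lt_or_ge (α ^ 3 - ε) 0 with hneg | hnn
  · refine ⟨1, fun N hN A _ _ => ⟨0, 1, one_ne_zero, ?_⟩⟩
    have hNpos : (0 : ℝ) < N := by exact_mod_cast (show 0 < N by omega)
    have h1 : (α ^ 3 - ε) * (N : ℝ) ^ 2 < 0 := mul_neg_of_neg_of_pos hneg (by positivity)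
    exact lt_of_lt_of_le h1 (Nat.cast_nonneg _)
  -- parameters
  obtain ⟨ε', hε'0, hε'ε, hε'1⟩ : ∃ ε' : ℝ, 0 < ε' ∧ ε' ≤ ε ∧ ε' ≤ 1 :=
    ⟨min ε 1, lt_min hε one_pos, min_le_left _ _, min_le_right _ _⟩
  set η : ℝ := ε' / 16 with hη
  set ε₁ : ℝ := ε' / 416 with hε₁
  have hη0 : 0 < η := by rw [hη]; positivity
  have hε₁0 : 0 < ε₁ := by rw [hε₁]; positivity
  have hη1 : η ≤ 1 / 16 := by rw [hη]; linarith
  set c₀ : ℕ := u.1.natAbs + u.2.natAbs + v.1.natAbs + v.2.natAbs + w.1.natAbs + w.2.natAbs + 1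
    with hc₀
  have hcz : (c₀ : ℤ) = |u.1| + |u.2| + |v.1| + |v.2| + |w.1| + |w.2| + 1 := by
    rw [hc₀]
    push_cast
    rfl
  have hp1 := abs_nonneg u.1
  have hp2 := abs_nonneg u.2
  have hp3 := abs_nonneg v.1
  have hp4 := abs_nonneg v.2
  have hp5 := abs_nonneg w.1
  have hp6 := abs_nonneg w.2
  have hb1 : |u.1| + |v.1| ≤ (c₀ : ℤ) := by rw [hcz]; linarith
  have hb2 : |u.2| + |v.2| ≤ (c₀ : ℤ) := by rw [hcz]; linarith
  have hb3 : |(0 : ℤ)| + |w.1| ≤ (c₀ : ℤ) := by rw [hcz, abs_zero]; linarith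
  have hb4 : |(0 : ℤ)| + |w.2| ≤ (c₀ : ℤ) := by rw [hcz, abs_zero]; linarith
  clear hp1 hp2 hp3 hp4 hp5 hp6 hcz
  have hc₀1 : (1 : ℝ) ≤ c₀ := by
    rw [hc₀]
    exact_mod_cast Nat.le_add_left 1 _
  set D : ℕ := (det2 u v * det2 u (w - v)).natAbs with hD
  have hDpos : 0 < D := Int.natAbs_pos.mpr (mul_ne_zero hD₁ hD₂)
  set δ₀ : ℝ := η / (2 * c₀) with hδ₀
  have hδ₀pos : 0 < δ₀ := by rw [hδ₀]; positivity
  have hδ₀c : (c₀ : ℝ) * δ₀ = η / 2 := by rw [hδ₀]; field_simp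
  have hδ₀1 : δ₀ ≤ 1 / 2 := by
    have h1 : 1 * δ₀ ≤ (c₀ : ℝ) * δ₀ := mul_le_mul_of_nonneg_right hc₀1 hδ₀pos.le
    linarith
  obtain ⟨lam, hlam, hreg⟩ := regularity ε₁ (δ₀ / 2) hε₁0 (by positivity) (by linarith)
  obtain ⟨N₁, hN₁⟩ := exists_nat_gt (2 * ((D : ℝ) + 1) / η)
  obtain ⟨N₂, hN₂⟩ := exists_nat_gt (1 / lam)
  refine ⟨max (max N₁ N₂) 1, ?_⟩
  intro N hN A hA hcard
  have hNN₁ : N₁ ≤ N := le_trans (le_trans (le_max_left _ _) (le_max_left _ _)) hN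
  have hNN₂ : N₂ ≤ N := le_trans (le_trans (le_max_right _ _) (le_max_left _ _)) hN
  have hN1 : 1 ≤ N := le_trans (le_max_right _ _) hN
  have hNr1 : (1 : ℝ) ≤ N := by exact_mod_cast hN1
  have hNr : (0 : ℝ) < N := by linarith
  have hND : (D : ℝ) + 1 ≤ η / 2 * N := by
    have h1 : 2 * ((D : ℝ) + 1) / η < N := hN₁.trans_le (by exact_mod_cast hNN₁)
    rw [div_lt_iff₀ hη0] at h1
    linarith
  have hNlam : 1 ≤ lam * N := by
    have h1 : 1 / lam < N := hN₂.trans_le (by exact_mod_cast hNN₂)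
    rw [div_lt_iff₀ hlam] at h1
    linarith
  -- K, C, M
  set K : ℕ := ⌊δ₀ * N⌋₊ with hK
  have hK1 : (K : ℝ) ≤ δ₀ * N := Nat.floor_le (by positivity)
  have hK2 : δ₀ * N < (K : ℝ) + 1 := Nat.lt_floor_add_one _
  set C : ℕ := c₀ * K with hC
  have hCr : (C : ℝ) ≤ η / 2 * N := by
    rw [hC]
    push_cast
    calc (c₀ : ℝ) * K ≤ c₀ * (δ₀ * N) := mul_le_mul_of_nonneg_left hK1 (by positivity)
      _ = (c₀ * δ₀) * N := by ring
      _ = η / 2 * N := by rw [hδ₀c]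
  set q : ℕ := (N + C) / D + 1 with hq
  set M : ℕ := 1 + D * q with hMdef
  have hM1 : N + C ≤ M := by
    have h1 : N + C < D * ((N + C) / D + 1) := Nat.lt_mul_div_succ (N + C) hDpos
    rw [hMdef, hq]
    omega
  have hM2 : M ≤ N + C + D + 1 := by
    have h1 : D * ((N + C) / D) ≤ N + C := Nat.mul_div_le _ _
    rw [hMdef, hq, Nat.mul_add]
    omega
  have : NeZero M := ⟨by rw [hMdef]; omega⟩
  have hMr1 : (N : ℝ) ≤ M := by exact_mod_cast (le_trans (Nat.le_add_right N C) hM1)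
  have hMr2 : (M : ℝ) ≤ (1 + η) * N := by
    have h1 : (M : ℝ) ≤ N + C + D + 1 := by exact_mod_cast hM2
    linarith
  have hMpos : (0 : ℝ) < M := by linarith
  have hKM : K < M := by
    have h1 : δ₀ * N ≤ 1 / 2 * N := mul_le_mul_of_nonneg_right hδ₀1 hNr.le
    have h2 : (K : ℝ) < M := by linarith
    exact_mod_cast h2
  have hKδ : δ₀ / 2 * M ≤ (K : ℝ) + 1 := by
    have h1 : (M : ℝ) ≤ 2 * N := by
      have h3 : η * N ≤ 1 / 16 * N := mul_le_mul_of_nonneg_right hη1 hNr.le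
      linarith
    have h2 : δ₀ / 2 * M ≤ δ₀ / 2 * (2 * N) := mul_le_mul_of_nonneg_left h1 (by positivity)
    linarith
  -- units
  have hu1 : IsUnit ((det2 u v : ℤ) : ZMod M) :=
    isUnit_of_dvd hMdef (by
      rw [hD, Int.dvd_natAbs]
      exact Dvd.intro _ rfl)
  have hu2 : IsUnit ((det2 u (w - v) : ℤ) : ZMod M) :=
    isUnit_of_dvd hMdef (by
      rw [hD, Int.dvd_natAbs]
      exact Dvd.intro_left _ rfl)
  obtain ⟨ω, hω1, hω2⟩ := exists_omega u v w hu1 hu2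
  obtain ⟨T, hT0, hTcard, hTint, hLam⟩ := hreg M ω (ind M u v A) K hω2
    (ind_nonneg u v A) (ind_le_one u v A) hKM hKδ
  have hTne : T.Nonempty := ⟨0, hT0⟩
  have hTpos : (0 : ℝ) < #T := Nat.cast_pos.mpr hTne.card_pos
  have hTinv : 1 / (#T : ℝ) ≤ ε₁ := by
    rw [div_le_iff₀ hTpos]
    have h1 : lam * N ≤ lam * M := mul_le_mul_of_nonneg_left hMr1 hlam.le
    linarith
  have havg : avg (ind M u v A) = (#A : ℝ) / (M : ℝ) ^ 2 := avg_ind u v hu1 A hA hM1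
  -- densities
  have hcardle : (#A : ℝ) ≤ (N : ℝ) ^ 2 := by exact_mod_cast card_le_sq A hA
  have hα1 : α ≤ 1 := by
    have h1 : α * (N : ℝ) ^ 2 ≤ 1 * (N : ℝ) ^ 2 := by linarith
    exact le_of_mul_le_mul_right h1 (by positivity)
  set ρ : ℝ := N / M with hρ
  have hρ1 : ρ ≤ 1 := by rw [hρ, div_le_one hMpos]; exact hMr1
  have hρη : 1 - η ≤ ρ := by
    rw [hρ, le_div_iff₀ hMpos]
    have h1 : (1 - η) * M ≤ (1 - η) * ((1 + η) * N) :=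
      mul_le_mul_of_nonneg_left hMr2 (by linarith)
    have h2 : (1 - η) * ((1 + η) * N) = N - η ^ 2 * N := by ring
    have h3 : 0 ≤ η ^ 2 * N := by positivity
    linarith
  have hineq := density_ineq (α := α) (ε := ε) (η := η) (ε₁ := ε₁) (ρ := ρ)
    (a := (#A : ℝ) / (M : ℝ) ^ 2) hα hα1 hη0.le (by rw [hη]; linarith) (by linarith)
    (by rw [hε₁]; linarith) hε hρ1 hρη (by
      rw [hρ, div_pow, ← mul_div_assoc]
      exact div_le_div_of_nonneg_right hcard (by positivity))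
  obtain ⟨s₁, hs₁, s₂, hs₂, t₁, ht₁, t₂, ht₂, hne, hlt⟩ :=
    exists_offdiag hTne (ind_nonneg u v A) (ind_le_one u v A) ω
      (c := (α ^ 3 - ε) * ρ ^ 2) (by positivity) (by
        rw [havg] at hLam
        linarith)
  obtain ⟨j, hj, hjc⟩ := hTint s₁ hs₁ s₂ hs₂
  obtain ⟨k, hk, hkc⟩ := hTint t₁ ht₁ t₂ ht₂
  have hk0 : k ≠ 0 := by
    intro h0
    rw [h0, Int.cast_zero] at hkc
    exact hne (sub_eq_zero.mp hkc.symm)
  refine ⟨j, k, hk0, ?_⟩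
  rw [← hjc, ← hkc] at hlt
  have hb5 : |k * w.1| ≤ (C : ℤ) := by
    have := abs_comb_le (j := 0) (k := k) (K := K) (by simp) hk hb3
    rwa [zero_mul, zero_add] at this
  have hb6 : |k * w.2| ≤ (C : ℤ) := by
    have := abs_comb_le (j := 0) (k := k) (K := K) (by simp) hk hb4
    rwa [zero_mul, zero_add] at this
  rw [avg_pattern u v w hu1 A hA hM1 ω hω1 j k
    ⟨abs_comb_le hj hk hb1, abs_comb_le hj hk hb2⟩
    ⟨hb5, hb6⟩] at hlt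
  rw [hρ, div_pow, ← mul_div_assoc] at hlt
  exact (div_lt_div_iff_of_pos_right (by positivity)).mp hlt

end Pool.Agent.MP_952e97_co
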