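import Pool.Agent.Lib.MP_952e97_co.LamBound

set_option autoImplicit false

namespace Pool.Agent.MP_952e97_co

open Finset
open scoped BigOperators ComplexConjugate

variable {M : ℕ} [NeZero M]

lemma mulw_add (s t : ZMod M) (ω : ZMod M × ZMod M) : mulw (s + t) ω = mulw s ω + mulw t ω := by
  unfold mulw
  ext <;> simp [add_mul]

lemma Fav_nonneg {T : Finset (ZMod M)} {f : ZMod M × ZMod M → ℝ} (hf0 : ∀ x, 0 ≤ f x)
    (x : ZMod M × ZMod M) : 0 ≤ Fav T f x := by
  unfold Fav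
  exact div_nonneg (Finset.sum_nonneg fun s _ => Finset.sum_nonneg fun t _ => hf0 _) (by positivity)

lemma Fav_le_one {T : Finset (ZMod M)} (hT : T.Nonempty) {f : ZMod M × ZMod M → ℝ}
    (hf1 : ∀ x, f x ≤ 1) (x : ZMod M × ZMod M) : Fav T f x ≤ 1 := by
  have hpos : (0 : ℝ) < #T := Nat.cast_pos.mpr hT.card_pos
  unfold Fav
  rw [div_le_one (by positivity)]
  calc ∑ s ∈ T, ∑ t ∈ T, f (x + (s, t)) ≤ ∑ s ∈ T, ∑ t ∈ T, (1 : ℝ) :=
        Finset.sum_le_sum fun s _ => Finset.sum_le_sum fun t _ => hf1 _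
    _ = (#T : ℝ) ^ 2 := by simp [sq]

lemma avg_Fav {T : Finset (ZMod M)} (hT : T.Nonempty) (f : ZMod M × ZMod M → ℝ) :
    avg (Fav T f) = avg f := by
  have hpos : (0 : ℝ) < #T := Nat.cast_pos.mpr hT.card_pos
  have h1 : avg (Fav T f) = avg (fun x => (∑ s ∈ T, ∑ t ∈ T, f (x + (s, t))) / (#T : ℝ) ^ 2) := rfl
  rw [h1, avg_div, avg_sum]
  have h2 : ∀ s ∈ T, avg (fun x => ∑ t ∈ T, f (x + (s, t))) = ∑ t ∈ T, avg f := by
    intro s _
    rw [avg_sum]
    exact Finset.sum_congr rfl fun t _ => avg_shift f (s, t)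
  rw [Finset.sum_congr rfl h2]
  simp only [Finset.sum_const, nsmul_eq_mul]
  field_simp

lemma avg_mul_shift_ge (a F : ZMod M × ZMod M → ℝ) (ha0 : ∀ x, 0 ≤ a x) (ha1 : ∀ x, a x ≤ 1)
    (y : ZMod M × ZMod M) {δ : ℝ} (hy : avg (fun x => |F (x + y) - F x|) ≤ δ) :
    avg (fun x => a x * F x) - δ ≤ avg (fun x => a x * F (x + y)) := by
  have h1 : avg (fun x => a x * F x - |F (x + y) - F x|) ≤ avg (fun x => a x * F (x + y)) := by
    apply avg_mono
    intro x
    have h2 := neg_abs_le (F (x + y) - F x)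
    have h3 := abs_nonneg (F (x + y) - F x)
    have h4 := ha0 x
    have h5 := ha1 x
    nlinarith [mul_le_mul_of_nonneg_right h5 h3, mul_le_mul_of_nonneg_left h2 h4]
  rw [avg_sub] at h1
  linarith

lemma av4_mono {T : Finset (ZMod M)} {φ ψ : ZMod M → ZMod M → ZMod M → ZMod M → ℝ}
    (h : ∀ s₁ ∈ T, ∀ s₂ ∈ T, ∀ t₁ ∈ T, ∀ t₂ ∈ T, φ s₁ s₂ t₁ t₂ ≤ ψ s₁ s₂ t₁ t₂) :
    av4 T φ ≤ av4 T ψ := by
  unfold av4
  refine div_le_div_of_nonneg_right ?_ (by positivity)
  exact Finset.sum_le_sum fun s₁ h₁ => Finset.sum_le_sum fun s₂ h₂ =>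
    Finset.sum_le_sum fun t₁ h₃ => Finset.sum_le_sum fun t₂ h₄ => h s₁ h₁ s₂ h₂ t₁ h₃ t₂ h₄

/-- Average of `f` along the direction `ω`. -/
noncomputable def gav (T : Finset (ZMod M)) (ω : ZMod M × ZMod M) (f : ZMod M × ZMod M → ℝ)
    (x : ZMod M × ZMod M) : ℝ := (∑ t ∈ T, f (x + mulw t ω)) / (#T : ℝ)

lemma gav_nonneg {T : Finset (ZMod M)} {ω : ZMod M × ZMod M} {f : ZMod M × ZMod M → ℝ}
    (hf0 : ∀ x, 0 ≤ f x) (x : ZMod M × ZMod M) : 0 ≤ gav T ω f x := by
  unfold gav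
  exact div_nonneg (Finset.sum_nonneg fun s _ => hf0 _) (by positivity)

lemma gav_le_one {T : Finset (ZMod M)} (hT : T.Nonempty) {ω : ZMod M × ZMod M}
    {f : ZMod M × ZMod M → ℝ} (hf1 : ∀ x, f x ≤ 1) (x : ZMod M × ZMod M) : gav T ω f x ≤ 1 := by
  have hpos : (0 : ℝ) < #T := Nat.cast_pos.mpr hT.card_pos
  unfold gav
  rw [div_le_one hpos]
  calc ∑ t ∈ T, f (x + mulw t ω) ≤ ∑ t ∈ T, (1 : ℝ) := Finset.sum_le_sum fun s _ => hf1 _
    _ = (#T : ℝ) := by simp

lemma gav_sq (T : Finset (ZMod M)) (ω : ZMod M × ZMod M) (f : ZMod M × ZMod M → ℝ)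
    (x : ZMod M × ZMod M) :
    gav T ω f x ^ 2 = (∑ t₁ ∈ T, ∑ t₂ ∈ T, f (x + mulw t₂ ω) * f (x + mulw t₁ ω)) / (#T : ℝ) ^ 2 := by
  unfold gav
  rw [div_pow, sq (∑ t ∈ T, f (x + mulw t ω)), Finset.sum_mul_sum]
  congr 1
  exact Finset.sum_congr rfl fun t _ => Finset.sum_congr rfl fun t' _ => mul_comm _ _

/-- The main positivity estimate. -/
lemma LamR_ge {T : Finset (ZMod M)} (hT : T.Nonempty) {f : ZMod M × ZMod M → ℝ}
    (hf0 : ∀ x, 0 ≤ f x) (hf1 : ∀ x, f x ≤ 1) (ω : ZMod M × ZMod M) {δ : ℝ}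
    (h1 : ∀ s₁ ∈ T, ∀ s₂ ∈ T, ∀ t₁ ∈ T, ∀ t₂ ∈ T,
      avg (fun x => |Fav T f (x + (s₁ - s₂, t₁ - t₂)) - Fav T f x|) ≤ δ)
    (h2 : ∀ t ∈ T, avg (fun x => |Fav T f (x + mulw t ω) - Fav T f x|) ≤ δ)
    (h3 : ∀ s ∈ T, ∀ t ∈ T, avg (fun x => |Fav T f (x + (s, t)) - Fav T f x|) ≤ δ) :
    (avg f) ^ 3 - 5 * δ ≤ LamR T ω f (Fav T f) := by
  have hpos : (0 : ℝ) < #T := Nat.cast_pos.mpr hT.card_pos
  set F := Fav T f with hF
  have hF0 : ∀ x, 0 ≤ F x := Fav_nonneg hf0
  have hF1 : ∀ x, F x ≤ 1 := Fav_le_one hT hf1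
  set g := gav T ω f with hg
  have hg0 : ∀ x, 0 ≤ g x := gav_nonneg hf0
  have hg1 : ∀ x, g x ≤ 1 := gav_le_one hT hf1
  -- step 1 and 2
  have hA : avg (fun x => F x * g x ^ 2) - 2 * δ ≤ LamR T ω f F := by
    have hpt : ∀ s₁ ∈ T, ∀ s₂ ∈ T, ∀ t₁ ∈ T, ∀ t₂ ∈ T,
        avg (fun x => F x * (f (x + mulw t₂ ω) * f (x + mulw t₁ ω))) - 2 * δ ≤
        avg (fun x => f x * f (x + mulw (t₁ - t₂) ω) * F (x + (s₁ - s₂, t₁ - t₂))) := by
      intro s₁ hs₁ s₂ hs₂ t₁ ht₁ t₂ ht₂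
      have hab : ∀ u v : ZMod M × ZMod M, 0 ≤ f u * f v ∧ f u * f v ≤ 1 := fun u v =>
        ⟨mul_nonneg (hf0 u) (hf0 v), by nlinarith [hf0 u, hf0 v, hf1 u, hf1 v]⟩
      have e1 := avg_mul_shift_ge (fun x => f x * f (x + mulw (t₁ - t₂) ω)) F
        (fun x => (hab _ _).1) (fun x => (hab _ _).2) _ (h1 s₁ hs₁ s₂ hs₂ t₁ ht₁ t₂ ht₂)
      have e2 := avg_mul_shift_ge (fun x => f (x + mulw t₂ ω) * f (x + mulw t₁ ω)) F
        (fun x => (hab _ _).1) (fun x => (hab _ _).2) _ (h2 t₂ ht₂)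
      have e3 : avg (fun x => f x * f (x + mulw (t₁ - t₂) ω) * F x)
          = avg (fun x => f (x + mulw t₂ ω) * f (x + mulw t₁ ω) * F (x + mulw t₂ ω)) := by
        rw [← avg_shift (fun x => f x * f (x + mulw (t₁ - t₂) ω) * F x) (mulw t₂ ω)]
        congr 1
        funext x
        have : x + mulw t₂ ω + mulw (t₁ - t₂) ω = x + mulw t₁ ω := by
          rw [add_assoc, ← mulw_add, add_sub_cancel]
        rw [this]
      have e4 : avg (fun x => F x * (f (x + mulw t₂ ω) * f (x + mulw t₁ ω)))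
          = avg (fun x => f (x + mulw t₂ ω) * f (x + mulw t₁ ω) * F x) := by
        congr 1
        funext x
        ring
      rw [e4]
      linarith
    have h4 := av4_mono (T := T) hpt
    have h5 : av4 T (fun _ _ t₁ t₂ =>
        avg (fun x => F x * (f (x + mulw t₂ ω) * f (x + mulw t₁ ω))) - 2 * δ)
        = avg (fun x => F x * g x ^ 2) - 2 * δ := by
      have h6 : avg (fun x => F x * g x ^ 2) = (∑ t₁ ∈ T, ∑ t₂ ∈ T,
          avg (fun x => F x * (f (x + mulw t₂ ω) * f (x + mulw t₁ ω)))) / (#T : ℝ) ^ 2 := by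
        have : (fun x => F x * g x ^ 2) = fun x => (∑ t₁ ∈ T, ∑ t₂ ∈ T,
            F x * (f (x + mulw t₂ ω) * f (x + mulw t₁ ω))) / (#T : ℝ) ^ 2 := by
          funext x
          rw [hg, gav_sq, ← mul_div_assoc, Finset.mul_sum]
          congr 1
          refine Finset.sum_congr rfl fun t _ => ?_
          rw [Finset.mul_sum]
        rw [this, avg_div, avg_sum]
        congr 1
        refine Finset.sum_congr rfl fun t _ => ?_
        rw [avg_sum]
      rw [h6]
      unfold av4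
      simp only [Finset.sum_const, nsmul_eq_mul, Finset.sum_sub_distrib]
      field_simp
    rw [h5] at h4
    exact h4
  -- step 3
  have hB : avg (fun x => F x * (gav T ω F x) ^ 2) - δ ≤ avg (fun x => F x * g x ^ 2) := by
    have hpt : ∀ s ∈ T, ∀ t ∈ T, avg (fun x => F x * g (x + (s, t)) ^ 2) - δ ≤
        avg (fun x => F x * g x ^ 2) := by
      intro s hs t ht
      have e1 := avg_mul_shift_ge (fun x => g (x + (s, t)) ^ 2) F
        (fun x => by positivity) (fun x => by nlinarith [hg0 (x + (s, t)), hg1 (x + (s, t))]) _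
        (h3 s hs t ht)
      have e2 : avg (fun x => g (x + (s, t)) ^ 2 * F (x + (s, t))) = avg (fun x => F x * g x ^ 2) := by
        rw [← avg_shift (fun x => F x * g x ^ 2) (s, t)]
        congr 1
        funext x
        ring
      have e3 : avg (fun x => F x * g (x + (s, t)) ^ 2) = avg (fun x => g (x + (s, t)) ^ 2 * F x) := by
        congr 1
        funext x
        ring
      rw [e3]
      linarith
    -- average over `(s,t)`
    have h4 : (∑ s ∈ T, ∑ t ∈ T, (avg (fun x => F x * g (x + (s, t)) ^ 2) - δ)) / (#T : ℝ) ^ 2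
        ≤ avg (fun x => F x * g x ^ 2) := by
      rw [div_le_iff₀ (by positivity)]
      calc (∑ s ∈ T, ∑ t ∈ T, (avg (fun x => F x * g (x + (s, t)) ^ 2) - δ))
          ≤ ∑ s ∈ T, ∑ t ∈ T, avg (fun x => F x * g x ^ 2) :=
            Finset.sum_le_sum fun s hs => Finset.sum_le_sum fun t ht => hpt s hs t ht
        _ = avg (fun x => F x * g x ^ 2) * (#T : ℝ) ^ 2 := by
            simp only [Finset.sum_const, nsmul_eq_mul]; ring
    have h5 : (∑ s ∈ T, ∑ t ∈ T, (avg (fun x => F x * g (x + (s, t)) ^ 2) - δ)) / (#T : ℝ) ^ 2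
        = avg (fun x => F x * ((∑ s ∈ T, ∑ t ∈ T, g (x + (s, t)) ^ 2) / (#T : ℝ) ^ 2)) - δ := by
      have h6 : avg (fun x => F x * ((∑ s ∈ T, ∑ t ∈ T, g (x + (s, t)) ^ 2) / (#T : ℝ) ^ 2))
          = (∑ s ∈ T, ∑ t ∈ T, avg (fun x => F x * g (x + (s, t)) ^ 2)) / (#T : ℝ) ^ 2 := by
        have : (fun x => F x * ((∑ s ∈ T, ∑ t ∈ T, g (x + (s, t)) ^ 2) / (#T : ℝ) ^ 2))
            = fun x => (∑ s ∈ T, ∑ t ∈ T, F x * g (x + (s, t)) ^ 2) / (#T : ℝ) ^ 2 := by
          funext x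
          rw [← mul_div_assoc, Finset.mul_sum]
          congr 1
          refine Finset.sum_congr rfl fun t _ => ?_
          rw [Finset.mul_sum]
        rw [this, avg_div, avg_sum]
        congr 1
        refine Finset.sum_congr rfl fun t _ => ?_
        rw [avg_sum]
      rw [h6]
      simp only [Finset.sum_const, nsmul_eq_mul, Finset.sum_sub_distrib]
      field_simp
    rw [h5] at h4
    refine le_trans ?_ h4
    have h7 : avg (fun x => F x * (gav T ω F x) ^ 2) ≤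
        avg (fun x => F x * ((∑ s ∈ T, ∑ t ∈ T, g (x + (s, t)) ^ 2) / (#T : ℝ) ^ 2)) := by
      apply avg_mono
      intro x
      refine mul_le_mul_of_nonneg_left ?_ (hF0 x)
      -- `gav T ω F x` is the average of `g (x + (s,t))`
      have e1 : gav T ω F x = (∑ p ∈ T ×ˢ T, g (x + p)) / (#T : ℝ) ^ 2 := by
        rw [Finset.sum_product]
        have : ∀ s t : ZMod M, g (x + (s, t)) = (∑ r ∈ T, f (x + mulw r ω + (s, t))) / (#T : ℝ) := by
          intro s t
          rw [hg]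
          unfold gav
          congr 1
          refine Finset.sum_congr rfl fun r _ => ?_
          rw [add_right_comm]
        simp only [this]
        unfold gav
        rw [hF]
        unfold Fav
        have e5 : ∀ s ∈ T, ∑ t ∈ T, (∑ r ∈ T, f (x + mulw r ω + (s, t))) / (#T : ℝ)
            = (∑ r ∈ T, ∑ t ∈ T, f (x + mulw r ω + (s, t))) / (#T : ℝ) := by
          intro s _
          rw [← Finset.sum_div, Finset.sum_comm]
        rw [Finset.sum_congr rfl e5, ← Finset.sum_div, ← Finset.sum_div, Finset.sum_comm]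
        field_simp
      have e2 : (∑ s ∈ T, ∑ t ∈ T, g (x + (s, t)) ^ 2) = ∑ p ∈ T ×ˢ T, g (x + p) ^ 2 := by
        rw [Finset.sum_product]
      rw [e1, e2, div_pow, div_le_div_iff₀ (by positivity) (by positivity)]
      have e3 := sq_sum_le_card_mul_sum_sq (s := T ×ˢ T) (f := fun p => g (x + p))
      rw [Finset.card_product] at e3
      push_cast at e3
      have e4 : 0 ≤ ((#T : ℝ)) ^ 2 := by positivity
      nlinarith [mul_le_mul_of_nonneg_right e3 e4]
    linarith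
  -- step 4
  have hC : avg (fun x => F x ^ 3) - 2 * δ ≤ avg (fun x => F x * (gav T ω F x) ^ 2) := by
    have hG0 : ∀ x, 0 ≤ gav T ω F x := gav_nonneg hF0
    have hG1 : ∀ x, gav T ω F x ≤ 1 := gav_le_one hT hF1
    have h4 : avg (fun x => |gav T ω F x - F x|) ≤ δ := by
      have h5 : ∀ x, |gav T ω F x - F x| ≤ (∑ t ∈ T, |F (x + mulw t ω) - F x|) / (#T : ℝ) := by
        intro x
        have : gav T ω F x - F x = (∑ t ∈ T, (F (x + mulw t ω) - F x)) / (#T : ℝ) := by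
          unfold gav
          rw [Finset.sum_sub_distrib, Finset.sum_const, nsmul_eq_mul]
          field_simp
        rw [this, abs_div, abs_of_pos hpos]
        exact div_le_div_of_nonneg_right (Finset.abs_sum_le_sum_abs _ _) hpos.le
      refine (avg_mono h5).trans ?_
      rw [avg_div, avg_sum, div_le_iff₀ hpos]
      calc ∑ t ∈ T, avg (fun x => |F (x + mulw t ω) - F x|) ≤ ∑ t ∈ T, δ :=
            Finset.sum_le_sum fun t ht => h2 t ht
        _ = δ * #T := by rw [Finset.sum_const, nsmul_eq_mul, mul_comm]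
    have h5 : avg (fun x => F x ^ 3 - 2 * |gav T ω F x - F x|) ≤
        avg (fun x => F x * (gav T ω F x) ^ 2) := by
      apply avg_mono
      intro x
      have a1 := hF0 x
      have a2 := hF1 x
      have a3 := hG0 x
      have a4 := hG1 x
      have a5 := neg_abs_le (gav T ω F x - F x)
      have a6 := abs_nonneg (gav T ω F x - F x)
      -- F³ - F G² = F (F - G)(F + G) ≤ 2 |F - G|
      have a7 : F x ^ 3 - F x * (gav T ω F x) ^ 2 = (F x * (F x + gav T ω F x)) *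
          (F x - gav T ω F x) := by ring
      have a8 : 0 ≤ F x * (F x + gav T ω F x) := by positivity
      have a9 : F x * (F x + gav T ω F x) ≤ 2 := by nlinarith
      have a10 : (F x * (F x + gav T ω F x)) * (F x - gav T ω F x) ≤
          2 * |gav T ω F x - F x| := by
        calc (F x * (F x + gav T ω F x)) * (F x - gav T ω F x)
            ≤ (F x * (F x + gav T ω F x)) * |gav T ω F x - F x| :=
              mul_le_mul_of_nonneg_left (by linarith) a8
          _ ≤ 2 * |gav T ω F x - F x| := mul_le_mul_of_nonneg_right a9 a6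
      linarith
    rw [avg_sub, avg_mul_left] at h5
    linarith
  have hD := cube_avg_le F hF0
  rw [hF, avg_Fav hT] at hD
  rw [← hF] at hD
  linarith

end Pool.Agent.MP_952e97_co
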