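import Pool.Agent.Lib.MP_952e97_co.Energy

set_option autoImplicit false
set_option linter.unusedSectionVars false

namespace Pool.Agent.MP_952e97_co

open Finset
open scoped BigOperators ComplexConjugate

/-- Reduction modulo `M`. -/
def proj (M : ℕ) (p : ℤ × ℤ) : ZMod M × ZMod M := ((p.1 : ZMod M), (p.2 : ZMod M))

lemma proj_add (M : ℕ) (p q : ℤ × ℤ) : proj M (p + q) = proj M p + proj M q := by
  unfold proj; ext <;> simp

/-- determinant of two integer vectors -/
def det2 (a b : ℤ × ℤ) : ℤ := a.1 * b.2 - a.2 * b.1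

/-- The linear map with columns `u, v` modulo `M`. -/
def phi (M : ℕ) (u v : ℤ × ℤ) (x : ZMod M × ZMod M) : ZMod M × ZMod M :=
  (x.1 * u.1 + x.2 * v.1, x.1 * u.2 + x.2 * v.2)

lemma int_eq_of_dvd {M : ℕ} {a : ℤ} (h : ((a : ℤ) : ZMod M) = 0) (h1 : |a| < M) : a = 0 := by
  rw [ZMod.intCast_zmod_eq_zero_iff_dvd] at h
  exact Int.eq_zero_of_abs_lt_dvd h h1

variable {M : ℕ} [NeZero M]

/-- No wrap-around. -/
lemma mem_image_proj_iff {N C : ℕ} (A : Finset (ℤ × ℤ))
    (hA : ∀ a ∈ A, (1 ≤ a.1 ∧ a.1 ≤ N) ∧ (1 ≤ a.2 ∧ a.2 ≤ N)) (hM : N + C ≤ M)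
    {a d : ℤ × ℤ} (ha : a ∈ A) (hd : |d.1| ≤ C ∧ |d.2| ≤ C) :
    proj M a + proj M d ∈ A.image (proj M) ↔ a + d ∈ A := by
  constructor
  · intro h
    obtain ⟨b, hb, hbe⟩ := Finset.mem_image.mp h
    rw [← proj_add] at hbe
    have ha' := hA a ha
    have hb' := hA b hb
    have hM' : (N : ℤ) + C ≤ M := by exact_mod_cast hM
    have h1 := congrArg Prod.fst hbe
    have h2 := congrArg Prod.snd hbe
    simp only [proj, Prod.fst_add, Prod.snd_add] at h1 h2
    have h3 : (((b.1 - (a.1 + d.1) : ℤ)) : ZMod M) = 0 := by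
      rw [Int.cast_sub, h1, sub_self]
    have h4 : (((b.2 - (a.2 + d.2) : ℤ)) : ZMod M) = 0 := by
      rw [Int.cast_sub, h2, sub_self]
    have hd1 := abs_le.mp hd.1
    have hd2 := abs_le.mp hd.2
    have h5 := int_eq_of_dvd h3 (by rw [abs_lt]; constructor <;> linarith [hd1.1, hd1.2])
    have h6 := int_eq_of_dvd h4 (by rw [abs_lt]; constructor <;> linarith [hd2.1, hd2.2])
    have h7 : a + d = b := by
      ext
      · simp only [Prod.fst_add]; linarith
      · simp only [Prod.snd_add]; linarith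
    rw [h7]
    exact hb
  · intro h
    rw [← proj_add]
    exact Finset.mem_image_of_mem _ h

lemma proj_injOn {N C : ℕ} (A : Finset (ℤ × ℤ))
    (hA : ∀ a ∈ A, (1 ≤ a.1 ∧ a.1 ≤ N) ∧ (1 ≤ a.2 ∧ a.2 ≤ N)) (hM : N + C ≤ M) :
    Set.InjOn (proj M) (A : Set (ℤ × ℤ)) := by
  intro a ha b hb hab
  have ha' := hA a ha
  have hb' := hA b hb
  have hM' : (N : ℤ) + C ≤ M := by exact_mod_cast hM
  have hC : (0 : ℤ) ≤ C := Int.natCast_nonneg C
  have h1 := congrArg Prod.fst hab
  have h2 := congrArg Prod.snd hab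
  simp only [proj] at h1 h2
  have h3 : (((a.1 - b.1 : ℤ)) : ZMod M) = 0 := by rw [Int.cast_sub, h1, sub_self]
  have h4 : (((a.2 - b.2 : ℤ)) : ZMod M) = 0 := by rw [Int.cast_sub, h2, sub_self]
  have h5 := int_eq_of_dvd h3 (by rw [abs_lt]; constructor <;> linarith)
  have h6 := int_eq_of_dvd h4 (by rw [abs_lt]; constructor <;> linarith)
  ext
  · linarith
  · linarith

lemma phi_bijective (u v : ℤ × ℤ) (hD : IsUnit ((det2 u v : ℤ) : ZMod M)) :
    Function.Bijective (phi M u v) := by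
  obtain ⟨d, hd⟩ := hD.exists_right_inv
  unfold det2 at hd
  push_cast at hd
  have hinj : Function.Injective (phi M u v) := by
    intro x y hxy
    have h1 := congrArg Prod.fst hxy
    have h2 := congrArg Prod.snd hxy
    simp only [phi] at h1 h2
    ext
    · have : x.1 * ((u.1 : ZMod M) * v.2 - u.2 * v.1) * d
          = y.1 * ((u.1 : ZMod M) * v.2 - u.2 * v.1) * d := by
        linear_combination (v.2 : ZMod M) * d * h1 - (v.1 : ZMod M) * d * h2
      rwa [mul_assoc, hd, mul_one, mul_assoc, hd, mul_one] at this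
    · have : x.2 * ((u.1 : ZMod M) * v.2 - u.2 * v.1) * d
          = y.2 * ((u.1 : ZMod M) * v.2 - u.2 * v.1) * d := by
        linear_combination (u.1 : ZMod M) * d * h2 - (u.2 : ZMod M) * d * h1
      rwa [mul_assoc, hd, mul_one, mul_assoc, hd, mul_one] at this
  exact ⟨hinj, Finite.surjective_of_injective hinj⟩

lemma avg_comp_phi (u v : ℤ × ℤ) (hD : IsUnit ((det2 u v : ℤ) : ZMod M))
    (G : ZMod M × ZMod M → ℝ) : avg (fun x => G (phi M u v x)) = avg G := by
  unfold avg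
  congr 1
  exact (phi_bijective u v hD).sum_comp G

/-- The indicator function in the new coordinates. -/
noncomputable def ind (M : ℕ) (u v : ℤ × ℤ) (A : Finset (ℤ × ℤ)) (x : ZMod M × ZMod M) : ℝ :=
  if phi M u v x ∈ A.image (proj M) then 1 else 0

lemma ind_nonneg (u v : ℤ × ℤ) (A : Finset (ℤ × ℤ)) (x : ZMod M × ZMod M) :
    0 ≤ ind M u v A x := by
  unfold ind; split_ifs <;> norm_num

lemma ind_le_one (u v : ℤ × ℤ) (A : Finset (ℤ × ℤ)) (x : ZMod M × ZMod M) :
    ind M u v A x ≤ 1 := by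
  unfold ind; split_ifs <;> norm_num

lemma avg_ind {N C : ℕ} (u v : ℤ × ℤ) (hD : IsUnit ((det2 u v : ℤ) : ZMod M))
    (A : Finset (ℤ × ℤ)) (hA : ∀ a ∈ A, (1 ≤ a.1 ∧ a.1 ≤ N) ∧ (1 ≤ a.2 ∧ a.2 ≤ N))
    (hM : N + C ≤ M) : avg (ind M u v A) = (#A : ℝ) / (M : ℝ) ^ 2 := by
  have h1 : avg (ind M u v A)
      = avg (fun p : ZMod M × ZMod M => if p ∈ A.image (proj M) then (1 : ℝ) else 0) :=
    avg_comp_phi u v hD (fun p => if p ∈ A.image (proj M) then (1 : ℝ) else 0)
  rw [h1]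
  unfold avg
  congr 1
  rw [← Finset.sum_filter, Finset.sum_const, nsmul_eq_mul, mul_one]
  congr 1
  rw [Finset.filter_mem_eq_inter, Finset.univ_inter]
  exact Finset.card_image_of_injOn (proj_injOn A hA hM)

lemma phi_add (u v : ℤ × ℤ) (x y : ZMod M × ZMod M) :
    phi M u v (x + y) = phi M u v x + phi M u v y := by
  unfold phi
  ext
  · simp only [Prod.fst_add, Prod.snd_add]; ring
  · simp only [Prod.fst_add, Prod.snd_add]; ring

/-- The count of patterns in the new coordinates. -/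
lemma avg_pattern {N C : ℕ} (u v w : ℤ × ℤ) (hD : IsUnit ((det2 u v : ℤ) : ZMod M))
    (A : Finset (ℤ × ℤ)) (hA : ∀ a ∈ A, (1 ≤ a.1 ∧ a.1 ≤ N) ∧ (1 ≤ a.2 ∧ a.2 ≤ N))
    (hM : N + C ≤ M) (ω : ZMod M × ZMod M) (hω : phi M u v ω = proj M w) (j k : ℤ)
    (h1 : |j * u.1 + k * v.1| ≤ C ∧ |j * u.2 + k * v.2| ≤ C)
    (h2 : |k * w.1| ≤ C ∧ |k * w.2| ≤ C) :
    avg (fun x => ind M u v A x * ind M u v A (x + mulw (k : ZMod M) ω) *
        ind M u v A (x + ((j : ZMod M), (k : ZMod M))))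
      = (#{a ∈ A | a + (j * u.1 + k * v.1, j * u.2 + k * v.2) ∈ A ∧ a + (k * w.1, k * w.2) ∈ A} : ℝ)
        / (M : ℝ) ^ 2 := by
  classical
  have e1 : ∀ x : ZMod M × ZMod M, phi M u v (x + mulw (k : ZMod M) ω)
      = phi M u v x + proj M (k * w.1, k * w.2) := by
    intro x
    rw [phi_add]
    congr 1
    have hω1 := congrArg Prod.fst hω
    have hω2 := congrArg Prod.snd hω
    simp only [phi, proj] at hω1 hω2
    unfold phi mulw proj
    ext
    · simp only
      push_cast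
      rw [← hω1]; ring
    · simp only
      push_cast
      rw [← hω2]; ring
  have e2 : ∀ x : ZMod M × ZMod M, phi M u v (x + ((j : ZMod M), (k : ZMod M)))
      = phi M u v x + proj M (j * u.1 + k * v.1, j * u.2 + k * v.2) := by
    intro x
    rw [phi_add]
    congr 1
    unfold phi proj
    ext
    · simp only; push_cast; ring
    · simp only; push_cast; ring
  set B := A.image (proj M) with hB
  have e3 : avg (fun x => ind M u v A x * ind M u v A (x + mulw (k : ZMod M) ω) *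
        ind M u v A (x + ((j : ZMod M), (k : ZMod M))))
      = avg (fun p : ZMod M × ZMod M =>
        if p ∈ B ∧ p + proj M (j * u.1 + k * v.1, j * u.2 + k * v.2) ∈ B ∧
          p + proj M (k * w.1, k * w.2) ∈ B then (1 : ℝ) else 0) := by
    refine Eq.trans ?_ (avg_comp_phi u v hD (fun p : ZMod M × ZMod M =>
        if p ∈ B ∧ p + proj M (j * u.1 + k * v.1, j * u.2 + k * v.2) ∈ B ∧
          p + proj M (k * w.1, k * w.2) ∈ B then (1 : ℝ) else 0))
    congr 1
    funext x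
    unfold ind
    rw [e1, e2, ← hB]
    by_cases a1 : phi M u v x ∈ B <;>
    by_cases a2 : phi M u v x + proj M (k * w.1, k * w.2) ∈ B <;>
    by_cases a3 : phi M u v x + proj M (j * u.1 + k * v.1, j * u.2 + k * v.2) ∈ B <;>
    simp [a1, a2, a3]
  rw [e3]
  unfold avg
  congr 1
  rw [← Finset.sum_filter, Finset.sum_const, nsmul_eq_mul, mul_one]
  congr 1
  have e4 : (Finset.univ.filter (fun p : ZMod M × ZMod M => p ∈ B ∧
      p + proj M (j * u.1 + k * v.1, j * u.2 + k * v.2) ∈ B ∧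
          p + proj M (k * w.1, k * w.2) ∈ B))
      = (A.filter (fun a => a + (j * u.1 + k * v.1, j * u.2 + k * v.2) ∈ A ∧
          a + (k * w.1, k * w.2) ∈ A)).image (proj M) := by
    ext p
    simp only [Finset.mem_filter, Finset.mem_univ, true_and, Finset.mem_image]
    constructor
    · rintro ⟨hp, hp1, hp2⟩
      obtain ⟨a, ha, rfl⟩ := Finset.mem_image.mp (hB ▸ hp)
      refine ⟨a, ⟨ha, ?_, ?_⟩, rfl⟩
      · exact (mem_image_proj_iff A hA hM ha h1).mp hp1
      · exact (mem_image_proj_iff A hA hM ha h2).mp hp2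
    · rintro ⟨a, ⟨ha, ha1, ha2⟩, rfl⟩
      refine ⟨Finset.mem_image_of_mem _ ha, ?_, ?_⟩
      · exact (mem_image_proj_iff A hA hM ha h1).mpr ha1
      · exact (mem_image_proj_iff A hA hM ha h2).mpr ha2
  rw [e4]
  exact Finset.card_image_of_injOn ((proj_injOn A hA hM).mono (by
    intro a ha
    exact (Finset.mem_filter.mp ha).1))

end Pool.Agent.MP_952e97_co
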